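import Pool.Agent.Q64.Shoot.Shoot

/-! # Existence of a positive radial solution for every `q > 1` -/

namespace Pool.Agent.Q64.SH

open MeasureTheory Set Filter Topology

variable {q A a : ℝ} {φ : ℝ → ℝ}

noncomputable def RR : ℝ := 2 * Real.pi ^ 2

noncomputable def kk : ℝ := 1 / (2 * Real.pi)

lemma RR_pos : 0 < RR := by unfold RR; positivity

lemma kk_pos : 0 < kk := by unfold kk; positivity

lemma kR : kk * RR = Real.pi := by
  unfold kk RR
  have := Real.pi_pos
  field_simp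

lemma k2R : kk ^ 2 * RR = 1 / 2 := by
  unfold kk RR
  have := Real.pi_pos
  field_simp

/-- Sturm comparison with `sin (k r) / r` -/
lemma sturm (hq : 1 < q) (h : IsSol (FF q A) a φ) (haA : a ≤ A)
    (hsmall : RR * a ^ (q - 1) ≤ 1 / 2) (hpos : ∀ s ∈ Icc 0 RR, 0 < φ s)
    (hle : ∀ s ∈ Icc 0 RR, φ s ≤ a) : False := by
  set Q : ℝ → ℝ := fun r => Real.sin (kk * r) * (φ r + r * DD (FF q A) φ r)
    - kk * Real.cos (kk * r) * (r * φ r) with hQ
  have hDc := h.DD_cont
  have hφc := h.cont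
  have hQc : Continuous Q := by fun_prop
  have hQd : ∀ r, r ≠ 0 → HasDerivAt Q
      (Real.sin (kk * r) * (r * FF q A (φ r) - φ r + kk ^ 2 * (r * φ r))) r := by
    intro r hr
    have h0 : HasDerivAt (fun r : ℝ => kk * r) kk r := by
      simpa using (hasDerivAt_id r).const_mul kk
    have h1 := h0.sin.fun_mul (h.hasDerivAt_u hr)
    have h2 := (h0.cos.const_mul kk).fun_mul ((hasDerivAt_id r).fun_mul (h.hasDerivAt hr))
    have h3 := h1.fun_sub h2
    refine h3.congr_deriv ?_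
    simp only [id]
    ring
  have hanti : AntitoneOn Q (Icc 0 RR) := by
    refine antitoneOn_of_hasDerivWithinAt_nonpos (convex_Icc 0 RR) hQc.continuousOn
      (f' := fun r => Real.sin (kk * r) * (r * FF q A (φ r) - φ r + kk ^ 2 * (r * φ r))) ?_ ?_
    · intro x hx
      rw [interior_Icc] at hx ⊢
      exact (hQd x hx.1.ne').hasDerivWithinAt
    · intro x hx
      rw [interior_Icc] at hx
      have hxI : x ∈ Icc 0 RR := ⟨hx.1.le, hx.2.le⟩
      have h1 : 0 ≤ Real.sin (kk * x) := by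
        refine Real.sin_nonneg_of_nonneg_of_le_pi (mul_nonneg kk_pos.le hx.1.le) ?_
        rw [← kR]; exact mul_le_mul_of_nonneg_left hx.2.le kk_pos.le
      have h2 := hpos x hxI
      have h3 := hle x hxI
      have h4 : FF q A (φ x) = φ x * φ x ^ (q - 1) := by
        rw [FF_eq h2.le (h3.trans haA), ← Real.rpow_one_add' h2.le (by linarith)]
        congr 1; ring
      have h5 : φ x ^ (q - 1) ≤ a ^ (q - 1) := Real.rpow_le_rpow h2.le h3 (by linarith)
      have h6 : x * φ x ^ (q - 1) ≤ 1 / 2 := by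
        have h8 : 0 ≤ φ x ^ (q - 1) := Real.rpow_nonneg h2.le _
        calc x * φ x ^ (q - 1) ≤ RR * a ^ (q - 1) :=
              mul_le_mul hx.2.le h5 h8 RR_pos.le
          _ ≤ _ := hsmall
      have h7 : kk ^ 2 * x ≤ 1 / 2 := by
        rw [← k2R]; exact mul_le_mul_of_nonneg_left hx.2.le (sq_nonneg _)
      rw [h4]
      have h8 : x * (φ x * φ x ^ (q - 1)) - φ x + kk ^ 2 * (x * φ x)
          = φ x * (x * φ x ^ (q - 1) - 1 + kk ^ 2 * x) := by ring
      rw [h8]
      refine mul_nonpos_of_nonneg_of_nonpos h1 ?_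
      exact mul_nonpos_of_nonneg_of_nonpos h2.le (by linarith)
  have h1 := hanti (left_mem_Icc.2 RR_pos.le) (right_mem_Icc.2 RR_pos.le) RR_pos.le
  have h2 : Q 0 = 0 := by simp [hQ]
  have h3 : Q RR = kk * (RR * φ RR) := by
    simp only [hQ, kR, Real.sin_pi, Real.cos_pi]; ring
  rw [h2, h3] at h1
  have h4 : 0 < kk * (RR * φ RR) :=
    mul_pos kk_pos (mul_pos RR_pos (hpos RR ⟨RR_pos.le, le_rfl⟩))
  linarith

lemma small (hq : 1 < q) (h : IsSol (FF q A) a φ) (ha : 0 < a) (haA : a ≤ A)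
    (hsmall : RR * a ^ (q - 1) ≤ 1 / 2) : Zev (FF q A) φ := by
  by_contra hZ
  have hU : ¬ Uev (FF q A) φ := by
    rintro ⟨r, hr, hDr, hpos⟩
    have hD0 : DD (FF q A) φ 0 < 0 := by rw [h.DD_zero]; linarith
    set S : Set ℝ := {s | s ∈ Icc 0 r ∧ 0 ≤ DD (FF q A) φ s} with hS
    have hSc : IsClosed S := isClosed_Icc.inter (isClosed_le continuous_const h.DD_cont)
    have hSb : BddBelow S := ⟨0, fun s hs => hs.1.1⟩
    have hSn : S.Nonempty := ⟨r, ⟨hr.le, le_rfl⟩, hDr.le⟩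
    set s0 := sInf S with hs0
    have hs0S : s0 ∈ S := hSc.csInf_mem hSn hSb
    have hs0p : 0 < s0 := by
      rcases hs0S.1.1.eq_or_lt with h1 | h1
      · have := hs0S.2
        rw [← h1] at this; linarith
      · exact h1
    have hlt : ∀ x, 0 ≤ x → x < s0 → DD (FF q A) φ x < 0 := by
      intro x hx hxs
      by_contra hcon
      push Not at hcon
      exact absurd (csInf_le hSb (show x ∈ S from ⟨⟨hx, hxs.le.trans hs0S.1.2⟩, hcon⟩))
        (not_le.2 hxs)
    have hφle : ∀ x, 0 ≤ x → x ≤ s0 → φ x ≤ a := by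
      intro x hx hxs
      rw [← h.zero]
      exact h.anti le_rfl hx fun z hz => (hlt z hz.1.le (hz.2.trans_le hxs)).le
    rcases le_or_gt s0 RR with h1 | h1
    · -- P(s0) < 0
      have hanti : StrictAntiOn (PP (FF q A) φ) (Icc 0 s0) := by
        refine strictAntiOn_of_hasDerivWithinAt_neg (convex_Icc 0 s0)
          (fun x _ => (h.hasDerivAt_PP x).continuousAt.continuousWithinAt)
          (f' := mm (FF q A) φ) ?_ ?_
        · intro x hx
          exact (h.hasDerivAt_PP x).hasDerivWithinAt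
        · intro x hx
          rw [interior_Icc] at hx
          have hφx := hpos x ⟨hx.1.le, hx.2.le.trans hs0S.1.2⟩
          have hφa := hφle x hx.1.le hx.2.le
          rw [mm, FF_eq hφx.le (hφa.trans haA)]
          have h5 : φ x ^ q = φ x * φ x ^ (q - 1) := by
            rw [← Real.rpow_one_add' hφx.le (by linarith)]; congr 1; ring
          have h6 : x ^ 2 * (φ x * φ x ^ (q - 1)) - x * φ x
              = x * φ x * (x * φ x ^ (q - 1) - 1) := by ring
          rw [h5, h6]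
          have h7 : φ x ^ (q - 1) ≤ a ^ (q - 1) := Real.rpow_le_rpow hφx.le hφa (by linarith)
          have h8 : x * φ x ^ (q - 1) ≤ 1 / 2 := by
            calc x * φ x ^ (q - 1) ≤ RR * a ^ (q - 1) :=
                  mul_le_mul (hx.2.le.trans h1) h7 (Real.rpow_nonneg hφx.le _) RR_pos.le
              _ ≤ _ := hsmall
          exact mul_neg_of_pos_of_neg (mul_pos hx.1 hφx) (by linarith)
      have h2 := hanti (left_mem_Icc.2 hs0p.le) (right_mem_Icc.2 hs0p.le) hs0p
      rw [h.PP_eq, h.PP_eq] at h2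
      have h3 := hs0S.2
      nlinarith [sq_nonneg s0]
    · exact sturm hq h haA hsmall
        (fun s hs => hpos s ⟨hs.1, hs.2.trans (h1.le.trans hs0S.1.2)⟩)
        (fun s hs => hφle s hs.1 (hs.2.trans h1.le))
  obtain ⟨h1, h2⟩ := dichotomy hq h ha haA hZ hU
  refine sturm hq h haA hsmall (fun s hs => h1 s hs.1) fun s hs => ?_
  rw [← h.zero]
  exact h.anti le_rfl hs.1 fun z hz => h2 z hz.1.le

lemma large (hq : 1 < q) (hA : 0 < A) (h : IsSol (FF q A) A φ) (hbig : 3 < (A / 2) ^ (q - 1)) :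
    Uev (FF q A) φ := by
  by_contra hU
  have hD0 : DD (FF q A) φ 0 < 0 := by rw [h.DD_zero]; linarith
  have hUD : ∀ r, 0 ≤ r → (∀ s ∈ Icc 0 r, 0 < φ s) → DD (FF q A) φ r ≤ 0 := by
    intro r hr hs
    by_contra hcon
    push Not at hcon
    rcases hr.eq_or_lt with h1 | h1
    · rw [← h1] at hcon; linarith
    · exact hU ⟨r, h1, hcon, hs⟩
  -- lower bound of D
  have hDlow : ∀ r, 0 ≤ r → (∀ s ∈ Ico 0 r, φ s ≤ A) → ∀ x ∈ Ico 0 r, -(A / 2) ≤ DD (FF q A) φ x := by
    intro r hr hs x hx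
    have h1 : 0 ≤ x * ∫ s in (0:ℝ)..1, s ^ 2 * FF q A (φ (x * s)) :=
      mul_nonneg hx.1 (intervalIntegral.integral_nonneg zero_le_one fun s _ =>
        mul_nonneg (sq_nonneg _) (FF_nonneg _ _ _))
    have hφc := h.cont
    have h2 : ∫ s in (0:ℝ)..1, s * φ (x * s) ≤ ∫ s in (0:ℝ)..1, s * A := by
      refine intervalIntegral.integral_mono_on zero_le_one
        ((by fun_prop : Continuous fun s => s * φ (x * s)).intervalIntegrable _ _)
        ((by fun_prop : Continuous fun s : ℝ => s * A).intervalIntegrable _ _) fun s hs' => ?_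
      refine mul_le_mul_of_nonneg_left (hs _ ⟨mul_nonneg hx.1 hs'.1, ?_⟩) hs'.1
      have : x * s ≤ x * 1 := mul_le_mul_of_nonneg_left hs'.2 hx.1
      linarith [hx.2]
    rw [intervalIntegral.integral_mul_const, integral_id] at h2
    rw [DD]; linarith
  -- positivity on [0,1]
  have hpos : ∀ r ∈ Icc (0:ℝ) 1, 0 < φ r := by
    by_contra hcon
    push Not at hcon
    obtain ⟨r0, hr0, hr0'⟩ := hcon
    set S : Set ℝ := {r | 0 ≤ r ∧ φ r ≤ 0} with hS
    have hSc : IsClosed S :=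
      (isClosed_le continuous_const continuous_id).inter (isClosed_le h.cont continuous_const)
    have hSb : BddBelow S := ⟨0, fun r hr => hr.1⟩
    have hSn : S.Nonempty := ⟨r0, hr0.1, hr0'⟩
    set r1 := sInf S with hr1
    have hr1S : r1 ∈ S := hSc.csInf_mem hSn hSb
    have hr11 : r1 ≤ 1 := (csInf_le hSb ⟨hr0.1, hr0'⟩).trans hr0.2
    have hr1p : 0 < r1 := by
      rcases hr1S.1.eq_or_lt with h1 | h1
      · have := hr1S.2
        rw [← h1, h.zero] at this; linarith
      · exact h1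
    have hlt : ∀ x, 0 ≤ x → x < r1 → 0 < φ x := by
      intro x hx hxr
      by_contra hcon
      push Not at hcon
      exact absurd (csInf_le hSb ⟨hx, hcon⟩) (not_le.2 hxr)
    have hDle : ∀ x, 0 ≤ x → x < r1 → DD (FF q A) φ x ≤ 0 := fun x hx hxr =>
      hUD x hx fun s hs => hlt s hs.1 (hs.2.trans_lt hxr)
    have hφA : ∀ s ∈ Ico 0 r1, φ s ≤ A := fun s hs => by
      rw [← h.zero]
      exact h.anti le_rfl hs.1 fun z hz => hDle z hz.1.le (hz.2.trans hs.2)
    have hlow := hDlow r1 hr1p.le hφA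
    -- mean value
    obtain ⟨c, hc, h1⟩ := exists_hasDerivAt_eq_slope φ (DD (FF q A) φ) hr1p
      h.cont.continuousOn (fun s hs => h.hasDerivAt hs.1.ne')
    have h2 := hlow c ⟨hc.1.le, hc.2⟩
    rw [h1, sub_zero, le_div_iff₀ hr1p, h.zero] at h2
    have h3 := hr1S.2
    nlinarith
  have hDle : ∀ x ∈ Icc (0:ℝ) 1, DD (FF q A) φ x ≤ 0 := fun x hx =>
    hUD x hx.1 fun s hs => hpos s ⟨hs.1, hs.2.trans hx.2⟩
  have hφA : ∀ s ∈ Icc (0:ℝ) 1, φ s ≤ A := fun s hs => by
    rw [← h.zero]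
    exact h.anti le_rfl hs.1 fun z hz => hDle z ⟨hz.1.le, hz.2.le.trans hs.2⟩
  have hφlow : ∀ s ∈ Icc (0:ℝ) 1, A / 2 ≤ φ s := by
    intro s hs
    rcases hs.1.eq_or_lt with h0 | h0
    · rw [← h0, h.zero]; linarith
    · obtain ⟨c, hc, h1⟩ := exists_hasDerivAt_eq_slope φ (DD (FF q A) φ) h0
        h.cont.continuousOn (fun s hs => h.hasDerivAt hs.1.ne')
      have h2 := hDlow 1 zero_le_one (fun s hs => hφA s ⟨hs.1, hs.2.le⟩) c
        ⟨hc.1.le, hc.2.trans_le hs.2⟩
      rw [h1, sub_zero, le_div_iff₀ h0, h.zero] at h2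
      nlinarith [hs.2]
  have h1 := hDle 1 ⟨zero_le_one, le_rfl⟩
  have hφc := h.cont
  have hFc := h.F_cont
  have h2 : ∫ s in (0:ℝ)..1, s * φ (1 * s) ≤ A / 2 := by
    have : ∫ s in (0:ℝ)..1, s * φ (1 * s) ≤ ∫ s in (0:ℝ)..1, s * A := by
      refine intervalIntegral.integral_mono_on zero_le_one
        ((by fun_prop : Continuous fun s => s * φ (1 * s)).intervalIntegrable _ _)
        ((by fun_prop : Continuous fun s : ℝ => s * A).intervalIntegrable _ _) fun s hs' => ?_
      rw [one_mul]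
      exact mul_le_mul_of_nonneg_left (hφA s hs') hs'.1
    rw [intervalIntegral.integral_mul_const, integral_id] at this
    linarith
  have h3 : (A / 2) ^ q / 3 ≤ ∫ s in (0:ℝ)..1, s ^ 2 * FF q A (φ (1 * s)) := by
    have : ∫ s in (0:ℝ)..1, s ^ 2 * (A / 2) ^ q ≤ ∫ s in (0:ℝ)..1, s ^ 2 * FF q A (φ (1 * s)) := by
      refine intervalIntegral.integral_mono_on zero_le_one
        ((by fun_prop : Continuous fun s : ℝ => s ^ 2 * (A / 2) ^ q).intervalIntegrable _ _)
        ((by fun_prop : Continuous fun s => s ^ 2 * FF q A (φ (1 * s))).intervalIntegrable _ _)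
        fun s hs' => ?_
      rw [one_mul]
      refine mul_le_mul_of_nonneg_left ?_ (sq_nonneg _)
      rw [← FF_eq (A := A) (by linarith : 0 ≤ A / 2) (by linarith)]
      exact FF_mono hq (hφlow s hs')
    rw [intervalIntegral.integral_mul_const, integral_pow] at this
    norm_num at this
    simp only [one_mul]
    linarith
  rw [DD, one_mul] at h1
  have h4 : (A / 2) ^ q = (A / 2) * (A / 2) ^ (q - 1) := by
    rw [← Real.rpow_one_add' (by linarith) (by linarith)]; congr 1; ring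
  rw [h4] at h3
  nlinarith

/-- A positive decreasing solution of the radial equation for every `q > 1`. -/
theorem exists_radial (hq : 1 < q) : ∃ (A a : ℝ) (φ : ℝ → ℝ), 0 < a ∧ a ≤ A ∧
    IsSol (FF q A) a φ ∧ (∀ r, 0 ≤ r → 0 < φ r) ∧ ∀ r, 0 ≤ r → DD (FF q A) φ r ≤ 0 := by
  have hq1 : 0 < q - 1 := by linarith
  set α : ℝ := (1 / (2 * RR)) ^ (1 / (q - 1)) with hα
  set A : ℝ := 2 * 4 ^ (1 / (q - 1)) with hA
  have hα0 : 0 < α := Real.rpow_pos_of_pos (by have := RR_pos; positivity) _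
  have hA0 : 0 < A := by positivity
  have hα1 : α ^ (q - 1) = 1 / (2 * RR) := by
    rw [hα, ← Real.rpow_mul (by have := RR_pos; positivity), one_div_mul_cancel hq1.ne',
      Real.rpow_one]
  have hA1 : (A / 2) ^ (q - 1) = 4 := by
    rw [hA, mul_div_cancel_left₀ _ (two_ne_zero), ← Real.rpow_mul (by norm_num),
      one_div_mul_cancel hq1.ne', Real.rpow_one]
  have hαA : α ≤ A := by
    have h1 : α ≤ 1 := by
      refine Real.rpow_le_one (by have := RR_pos; positivity) ?_ (by positivity)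
      rw [div_le_one (by have := RR_pos; positivity)]
      unfold RR
      nlinarith [Real.pi_gt_three]
    have h2 : (1:ℝ) ≤ 4 ^ (1 / (q - 1)) := Real.one_le_rpow (by norm_num) (by positivity)
    rw [hA]; linarith
  obtain ⟨Λ, Φ, hΛ, hΦc, hΦe, hΦl⟩ := exists_sol (FF_zero hq hA0) (FF_lip hq hA0)
  have hFc : Continuous (FF q A) := by
    have : LipschitzWith (Real.toNNReal (q * A ^ (q - 1))) (FF q A) := by
      refine LipschitzWith.of_dist_le_mul fun x y => ?_
      rw [Real.dist_eq, Real.dist_eq, Real.coe_toNNReal _ (by positivity)]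
      exact FF_lip hq hA0 x y
    exact this.continuous
  have hsol : ∀ a, IsSol (FF q A) a (Φ a) := fun a => ⟨hFc, hΦc a, hΦe a⟩
  -- joint continuity
  have hjc : Continuous fun p : ℝ × ℝ => Φ p.1 p.2 := by
    rw [continuous_iff_continuousAt]
    rintro ⟨a0, r0⟩
    rw [ContinuousAt, tendsto_iff_dist_tendsto_zero]
    have h1 : Tendsto (fun p : ℝ × ℝ => 2 * |p.1 - a0| * w Λ p.2 + |Φ a0 p.2 - Φ a0 r0|)
        (𝓝 (a0, r0)) (𝓝 0) := by
      have hc : Continuous fun p : ℝ × ℝ => 2 * |p.1 - a0| * w Λ p.2 + |Φ a0 p.2 - Φ a0 r0| := by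
        have := w_cont Λ; have := hΦc a0; fun_prop
      have := hc.tendsto (a0, r0)
      simpa using this
    refine squeeze_zero (fun _ => dist_nonneg) (fun p => ?_) h1
    rw [Real.dist_eq]
    calc |Φ p.1 p.2 - Φ a0 r0| ≤ |Φ p.1 p.2 - Φ a0 p.2| + |Φ a0 p.2 - Φ a0 r0| :=
          abs_sub_le _ _ _
      _ ≤ _ := by gcongr; exact hΦl _ _ _
  have hjD : Continuous fun p : ℝ × ℝ => DD (FF q A) (Φ p.1) p.2 := by
    unfold DD
    have h1 : Continuous fun p : ℝ × ℝ =>
        ∫ s in (0:ℝ)..1, s ^ 2 * FF q A (Φ p.1 (p.2 * s)) := by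
      refine intervalIntegral.continuous_parametric_intervalIntegral_of_continuous' ?_ _ _
      simp only [Function.uncurry_def]
      have : Continuous fun x : (ℝ × ℝ) × ℝ => Φ x.1.1 (x.1.2 * x.2) :=
        hjc.comp (f := fun x : (ℝ × ℝ) × ℝ => (x.1.1, x.1.2 * x.2)) (by fun_prop)
      fun_prop
    have h2 : Continuous fun p : ℝ × ℝ => ∫ s in (0:ℝ)..1, s * Φ p.1 (p.2 * s) := by
      refine intervalIntegral.continuous_parametric_intervalIntegral_of_continuous' ?_ _ _
      simp only [Function.uncurry_def]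
      have : Continuous fun x : (ℝ × ℝ) × ℝ => Φ x.1.1 (x.1.2 * x.2) :=
        hjc.comp (f := fun x : (ℝ × ℝ) × ℝ => (x.1.1, x.1.2 * x.2)) (by fun_prop)
      fun_prop
    fun_prop
  have hsl : ∀ r, Continuous fun a => Φ a r := fun r =>
    hjc.comp (f := fun a : ℝ => (a, r)) (by fun_prop)
  have hslD : ∀ r, Continuous fun a => DD (FF q A) (Φ a) r := fun r =>
    hjD.comp (f := fun a : ℝ => (a, r)) (by fun_prop)
  have hZo : IsOpen {a | Zev (FF q A) (Φ a)} := by
    rw [isOpen_iff_mem_nhds]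
    rintro a0 ⟨r, hr, h1, h2⟩
    have h3 : ∀ᶠ a in 𝓝 a0, Φ a r < 0 := (hsl r).continuousAt.eventually_lt_const h1
    have h4 : ∀ᶠ a in 𝓝 a0, ∀ s ∈ Icc 0 r, DD (FF q A) (Φ a) s < 0 := by
      refine isCompact_Icc.eventually_forall_of_forall_eventually fun s hs => ?_
      exact hjD.continuousAt.eventually_lt_const (h2 s hs)
    filter_upwards [h3, h4] with a h5 h6
    exact ⟨r, hr, h5, h6⟩
  have hUo : IsOpen {a | Uev (FF q A) (Φ a)} := by
    rw [isOpen_iff_mem_nhds]
    rintro a0 ⟨r, hr, h1, h2⟩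
    have h3 : ∀ᶠ a in 𝓝 a0, 0 < DD (FF q A) (Φ a) r :=
      (hslD r).continuousAt.eventually_const_lt h1
    have h4 : ∀ᶠ a in 𝓝 a0, ∀ s ∈ Icc 0 r, 0 < Φ a s := by
      refine isCompact_Icc.eventually_forall_of_forall_eventually fun s hs => ?_
      exact hjc.continuousAt.eventually_const_lt (h2 s hs)
    filter_upwards [h3, h4] with a h5 h6
    exact ⟨r, hr, h5, h6⟩
  have hZα : Zev (FF q A) (Φ α) := small hq (hsol α) hα0 hαA (by
    rw [hα1]
    have := RR_pos
    field_simp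
    exact le_rfl)
  have hUA : Uev (FF q A) (Φ A) := large hq hA0 (hsol A) (by rw [hA1]; norm_num)
  have hex : ∃ a ∈ Icc α A, ¬ Zev (FF q A) (Φ a) ∧ ¬ Uev (FF q A) (Φ a) := by
    by_contra hcon
    push Not at hcon
    have hcov : Icc α A ⊆ {a | Zev (FF q A) (Φ a)} ∪ {a | Uev (FF q A) (Φ a)} := by
      intro a ha
      by_cases h1 : Zev (FF q A) (Φ a)
      · exact Or.inl h1
      · exact Or.inr (hcon a ha h1)
    obtain ⟨a, _, h1, h2⟩ := isPreconnected_Icc _ _ hZo hUo hcov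
      ⟨α, ⟨le_rfl, hαA⟩, hZα⟩ ⟨A, ⟨hαA, le_rfl⟩, hUA⟩
    exact not_both h1 h2
  obtain ⟨a, ha, hZ, hU⟩ := hex
  obtain ⟨h1, h2⟩ := dichotomy hq (hsol a) (hα0.trans_le ha.1) ha.2 hZ hU
  exact ⟨A, a, Φ a, hα0.trans_le ha.1, ha.2, hsol a, h1, h2⟩

end Pool.Agent.Q64.SH
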