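import Pool.Agent.Q64.Shoot.Weak

/-! # The radial solution as a distributional solution on `ℝ³` -/

namespace Pool.Agent.Q64.SH

open MeasureTheory Set Filter Topology Metric
open scoped ContDiff

lemma hasFDerivAt_norm' {x : E3} (hx : x ≠ 0) :
    HasFDerivAt (fun y : E3 => ‖y‖) (‖x‖⁻¹ • innerSL ℝ x) x := by
  have h1 := (hasStrictFDerivAt_norm_sq x).hasFDerivAt
  have h2 := h1.sqrt (pow_ne_zero 2 (norm_ne_zero_iff.2 hx))
  have h3 : (fun y : E3 => √(‖y‖ ^ 2)) = fun y => ‖y‖ := by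
    funext y; exact Real.sqrt_sq (norm_nonneg y)
  rw [h3] at h2
  refine h2.congr_fderiv ?_
  rw [Real.sqrt_sq (norm_nonneg x)]
  have h0 : ‖x‖ ≠ 0 := norm_ne_zero_iff.2 hx
  ext y
  simp only [smul_apply, innerSL_apply_apply, smul_eq_mul, nsmul_eq_mul]
  push_cast
  field_simp

lemma contDiffOn_of_hasDerivAt {f f' : ℝ → ℝ} (h : ∀ r, 0 < r → HasDerivAt f (f' r) r)
    (hc : ContinuousOn f' (Ioi 0)) : ContDiffOn ℝ 1 f (Ioi 0) := by
  have h1 : ContDiffOn ℝ (0 + 1) f (Ioi 0) := by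
    rw [contDiffOn_succ_iff_deriv_of_isOpen isOpen_Ioi]
    refine ⟨fun r hr => (h r hr).differentiableAt.differentiableWithinAt, by simp, ?_⟩
    rw [contDiffOn_zero]
    refine hc.congr fun r hr => ?_
    exact (h r hr).deriv
  simpa using h1

lemma radial_fderiv {f f' : ℝ → ℝ} (h : ∀ r, 0 < r → HasDerivAt f (f' r) r) {x : E3}
    (hx : x ≠ 0) : HasFDerivAt (fun x : E3 => f ‖x‖) ((f' ‖x‖ * ‖x‖⁻¹) • innerSL ℝ x) x := by
  have h1 := (h ‖x‖ (norm_pos_iff.2 hx)).comp_hasFDerivAt x (hasFDerivAt_norm' hx)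
  refine h1.congr_fderiv ?_
  rw [smul_smul]

lemma radial_contDiffOn {f f' : ℝ → ℝ} (h : ∀ r, 0 < r → HasDerivAt f (f' r) r)
    (hc : ContinuousOn f' (Ioi 0)) : ContDiffOn ℝ 1 (fun x : E3 => f ‖x‖) {0}ᶜ := by
  intro x hx
  have hx' : x ≠ 0 := hx
  have h1 : ContDiffAt ℝ 1 f ‖x‖ :=
    (contDiffOn_of_hasDerivAt h hc).contDiffAt (isOpen_Ioi.mem_nhds (norm_pos_iff.2 hx'))
  exact (h1.comp x (contDiffAt_norm ℝ hx')).contDiffWithinAt

lemma inner_eb (x : E3) (i : Fin 3) : innerSL ℝ x (eb i) = x i := by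
  simp [eb, EuclideanSpace.inner_single_right]

lemma sum_sq (x : E3) : ∑ i, x i * x i = ‖x‖ ^ 2 := by
  rw [EuclideanSpace.norm_sq_eq]
  refine Finset.sum_congr rfl fun i _ => ?_
  rw [Real.norm_eq_abs, sq_abs, sq]

lemma abs_coord_le (x : E3) (i : Fin 3) : |x i| ≤ ‖x‖ := by
  rw [← Real.norm_eq_abs]; exact PiLp.norm_apply_le x i

variable {q A a : ℝ} {φ : ℝ → ℝ}

/-- the gradient -/
noncomputable def gr (F φ : ℝ → ℝ) (x : E3) : E3 := (DD F φ ‖x‖ * ‖x‖⁻¹) • x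

lemma gr_norm {F : ℝ → ℝ} {x : E3} (hx : x ≠ 0) : ‖gr F φ x‖ = |DD F φ ‖x‖| := by
  have : 0 < ‖x‖ := norm_pos_iff.2 hx
  rw [gr, norm_smul, norm_mul, norm_inv, norm_norm, mul_assoc, inv_mul_cancel₀ this.ne', mul_one,
    Real.norm_eq_abs]

lemma ae_ne : ∀ᵐ x : E3, x ≠ 0 := by
  rw [ae_iff]; simp

theorem weak_sol {F : ℝ → ℝ} (h : IsSol F a φ) {η : E3 → ℝ} (hη : ContDiff ℝ ∞ η)
    (hc : HasCompactSupport η) :
    (∀ i, ∫ x : E3, φ ‖x‖ * fderiv ℝ η x (eb i) = -∫ x, gr F φ x i * η x) ∧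
    (∫ x : E3, ∑ i, fderiv ℝ η x (eb i) * gr F φ x i) +
      ∫ x : E3, η x * (F (φ ‖x‖) - ‖x‖⁻¹ * φ ‖x‖) = 0 := by
  have hF := h.F_cont
  have hφ := h.cont
  have hD := h.DD_cont
  -- bounds
  have hbd : ∀ R : ℝ, ∃ C : ℝ, 0 ≤ C ∧ ∀ r, 0 < r → r ≤ R →
      |φ r| ≤ C ∧ |DD F φ r| ≤ C ∧ |F (φ r)| ≤ C := by
    intro R
    obtain ⟨C1, hC1⟩ := isCompact_Icc.exists_bound_of_continuousOn (s := Icc (0:ℝ) R)
      hφ.continuousOn
    obtain ⟨C2, hC2⟩ := isCompact_Icc.exists_bound_of_continuousOn (s := Icc (0:ℝ) R)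
      hD.continuousOn
    obtain ⟨C3, hC3⟩ := isCompact_Icc.exists_bound_of_continuousOn (s := Icc (0:ℝ) R)
      (hF.comp hφ).continuousOn
    refine ⟨|C1| + |C2| + |C3|, by positivity, fun r hr hrR => ?_⟩
    have m : r ∈ Icc 0 R := ⟨hr.le, hrR⟩
    have e1 := hC1 r m
    have e2 := hC2 r m
    have e3 := hC3 r m
    rw [Real.norm_eq_abs] at e1 e2 e3
    have f1 := le_abs_self C1
    have f2 := le_abs_self C2
    have f3 := le_abs_self C3
    have g1 := abs_nonneg C1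
    have g2 := abs_nonneg C2
    have g3 := abs_nonneg C3
    simp only [Function.comp_apply] at e3
    refine ⟨by linarith, by linarith, by linarith⟩
  -- first function
  have hφd : ∀ r, 0 < r → HasDerivAt φ (DD F φ r) r := fun r hr => h.hasDerivAt hr.ne'
  have A1 := radial_contDiffOn hφd hD.continuousOn
  have A2 : ∀ x : E3, x ≠ 0 → fderiv ℝ (fun x : E3 => φ ‖x‖) x
      = (DD F φ ‖x‖ * ‖x‖⁻¹) • innerSL ℝ x := fun x hx => (radial_fderiv hφd hx).fderiv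
  have A3 : ∀ R : ℝ, ∃ C : ℝ, ∀ x : E3, x ≠ 0 → ‖x‖ ≤ R →
      |φ ‖x‖| ≤ C ∧ ‖fderiv ℝ (fun x : E3 => φ ‖x‖) x‖ ≤ C * ‖x‖⁻¹ := by
    intro R
    obtain ⟨C, hC0, hC⟩ := hbd R
    refine ⟨C * (1 + |R|), fun x hx hxR => ?_⟩
    have hx0 := norm_pos_iff.2 hx
    obtain ⟨e1, e2, _⟩ := hC ‖x‖ hx0 hxR
    constructor
    · have := abs_nonneg R
      nlinarith
    · rw [A2 x hx, norm_smul, innerSL_apply_norm, norm_mul, norm_inv, norm_norm, mul_assoc,
        Real.norm_eq_abs]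
      have e4 : ‖x‖ ≤ |R| := hxR.trans (le_abs_self R)
      calc |DD F φ ‖x‖| * (‖x‖⁻¹ * ‖x‖) ≤ C * (‖x‖⁻¹ * |R|) := by gcongr
        _ ≤ C * (1 + |R|) * ‖x‖⁻¹ := by
          have : 0 ≤ C * ‖x‖⁻¹ := by positivity
          nlinarith
  -- second functions
  set H : ℝ → ℝ := fun r => DD F φ r * r⁻¹ with hH
  set H' : ℝ → ℝ := fun r => (F (φ r) - φ r / r - 2 * DD F φ r / r) * r⁻¹
    + DD F φ r * (-(r ^ 2)⁻¹) with hH'
  have hHd : ∀ r, 0 < r → HasDerivAt H (H' r) r := fun r hr =>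
    (h.hasDerivAt_DD hr.ne').fun_mul (hasDerivAt_inv hr.ne')
  have hH'c : ContinuousOn H' (Ioi 0) := by
    have c1 : ContinuousOn (fun r : ℝ => r⁻¹) (Ioi 0) :=
      continuousOn_inv₀.mono fun r hr => ne_of_gt (mem_Ioi.1 hr)
    have c2 : ContinuousOn (fun r : ℝ => (r ^ 2)⁻¹) (Ioi 0) :=
      (continuousOn_pow 2).inv₀ fun r hr => pow_ne_zero 2 (ne_of_gt (mem_Ioi.1 hr))
    have c3 : ContinuousOn (fun r => F (φ r)) (Ioi 0) := (hF.comp hφ).continuousOn
    have c4 : ContinuousOn φ (Ioi 0) := hφ.continuousOn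
    have c5 : ContinuousOn (DD F φ) (Ioi 0) := hD.continuousOn
    simp only [hH', div_eq_mul_inv]
    exact (((c3.sub (c4.mul c1)).sub ((continuousOn_const.mul c5).mul c1)).mul c1).add
      (c5.mul c2.neg)
  have B1 := radial_contDiffOn hHd hH'c
  have B0 : ∀ i : Fin 3, (fun x : E3 => gr F φ x i) = fun x : E3 => H ‖x‖ * x i := by
    intro i; funext x; simp [gr, hH]
  have hpr : ∀ i : Fin 3, ∀ x : E3, HasFDerivAt (fun x : E3 => x i)
      (EuclideanSpace.proj i : E3 →L[ℝ] ℝ) x := fun i x =>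
    (EuclideanSpace.proj i : E3 →L[ℝ] ℝ).hasFDerivAt
  have B2 : ∀ i : Fin 3, ContDiffOn ℝ 1 (fun x : E3 => gr F φ x i) {0}ᶜ := by
    intro i
    rw [B0 i]
    have : ContDiff ℝ 1 (fun x : E3 => x i) := (EuclideanSpace.proj i : E3 →L[ℝ] ℝ).contDiff
    exact B1.mul this.contDiffOn
  have B3 : ∀ i : Fin 3, ∀ x : E3, x ≠ 0 → fderiv ℝ (fun x : E3 => gr F φ x i) x
      = H ‖x‖ • (EuclideanSpace.proj i : E3 →L[ℝ] ℝ)
        + x i • ((H' ‖x‖ * ‖x‖⁻¹) • innerSL ℝ x) := by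
    intro i x hx
    rw [B0 i]
    exact ((radial_fderiv hHd hx).mul (hpr i x)).fderiv
  have hprn : ∀ i : Fin 3, ‖(EuclideanSpace.proj i : E3 →L[ℝ] ℝ)‖ ≤ 1 := by
    intro i
    refine ContinuousLinearMap.opNorm_le_bound _ zero_le_one fun x => ?_
    rw [one_mul]
    exact PiLp.norm_apply_le x i
  have B4 : ∀ i : Fin 3, ∀ R : ℝ, ∃ C : ℝ, ∀ x : E3, x ≠ 0 → ‖x‖ ≤ R →
      |gr F φ x i| ≤ C ∧ ‖fderiv ℝ (fun x : E3 => gr F φ x i) x‖ ≤ C * ‖x‖⁻¹ := by
    intro i R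
    obtain ⟨C, hC0, hC⟩ := hbd R
    refine ⟨C * |R| + 5 * C, fun x hx hxR => ?_⟩
    have hx0 := norm_pos_iff.2 hx
    obtain ⟨e1, e2, e3⟩ := hC ‖x‖ hx0 hxR
    have e4 : ‖x‖ ≤ |R| := hxR.trans (le_abs_self R)
    have e5 : 0 ≤ C * |R| := by positivity
    constructor
    · have := abs_coord_le (gr F φ x) i
      rw [gr_norm hx] at this
      linarith
    · rw [B3 i x hx]
      set r := ‖x‖ with hr
      have k1 : |H r| ≤ C * r⁻¹ := by
        simp only [hH]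
        rw [abs_mul, abs_of_pos (inv_pos.2 hx0)]
        gcongr
      have k2 : |H' r| ≤ (C * |R| + 4 * C) * (r⁻¹ * r⁻¹) := by
        have k3 : |F (φ r) - φ r / r - 2 * DD F φ r / r| ≤ (C * |R| + 3 * C) * r⁻¹ := by
          calc |F (φ r) - φ r / r - 2 * DD F φ r / r|
              ≤ |F (φ r)| + |φ r / r| + |2 * DD F φ r / r| := by
                refine (abs_sub _ _).trans ?_
                gcongr
                exact abs_sub _ _
            _ ≤ C * (|R| * r⁻¹) + C * r⁻¹ + 2 * C * r⁻¹ := by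
                rw [abs_div, abs_div, abs_of_pos hx0, abs_mul, abs_two, div_eq_mul_inv,
                  div_eq_mul_inv]
                have k4 : |F (φ r)| ≤ C * (|R| * r⁻¹) := by
                  have : 1 ≤ |R| * r⁻¹ := by
                    rw [← div_eq_mul_inv, le_div_iff₀ hx0, one_mul]; exact e4
                  nlinarith
                gcongr
            _ = _ := by ring
        simp only [hH']
        refine (abs_add_le _ _).trans ?_
        rw [abs_mul, abs_mul, abs_neg, abs_of_pos (inv_pos.2 hx0),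
          abs_of_pos (inv_pos.2 (pow_pos hx0 2))]
        calc |F (φ r) - φ r / r - 2 * DD F φ r / r| * r⁻¹ + |DD F φ r| * (r ^ 2)⁻¹
            ≤ ((C * |R| + 3 * C) * r⁻¹) * r⁻¹ + C * (r ^ 2)⁻¹ := by gcongr
          _ = _ := by rw [sq, mul_inv]; ring
      calc ‖H r • (EuclideanSpace.proj i : E3 →L[ℝ] ℝ) + x i • ((H' r * r⁻¹) • innerSL ℝ x)‖
          ≤ |H r| * 1 + |x i| * (|H' r| * r⁻¹ * r) := by
            refine (norm_add_le _ _).trans ?_
            rw [norm_smul (H r), norm_smul (x i), norm_smul (H' r * r⁻¹), innerSL_apply_norm,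
              Real.norm_eq_abs, Real.norm_eq_abs, Real.norm_eq_abs, abs_mul (H' r),
              abs_of_pos (inv_pos.2 hx0)]
            exact add_le_add (mul_le_mul_of_nonneg_left (hprn i) (abs_nonneg _)) le_rfl
        _ ≤ C * r⁻¹ * 1 + r * ((C * |R| + 4 * C) * (r⁻¹ * r⁻¹) * r⁻¹ * r) := by
            gcongr
            exact abs_coord_le x i
        _ = (C * |R| + 5 * C) * r⁻¹ := by field_simp; ring
  -- conclusions
  have I1 : ∀ i, _ := fun i => ibp0 A1 A3 hη hc i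
  have I2 : ∀ i, _ := fun i => ibp0 (B2 i) (B4 i) hη hc i
  refine ⟨fun i => ?_, ?_⟩
  · rw [(I1 i).2.2]
    congr 1
    refine integral_congr_ae ?_
    filter_upwards [ae_ne] with x hx
    rw [A2 x hx, ContinuousLinearMap.smul_apply, inner_eb]
    simp [gr]
  · have j1 : ∫ x : E3, ∑ i, fderiv ℝ η x (eb i) * gr F φ x i
        = ∑ i, ∫ x : E3, fderiv ℝ η x (eb i) * gr F φ x i := by
      rw [integral_finsetSum]
      intro i _
      refine (I2 i).1.congr (Eventually.of_forall fun x => ?_)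
      exact mul_comm _ _
    have j2 : ∀ i : Fin 3, ∫ x : E3, fderiv ℝ η x (eb i) * gr F φ x i
        = -∫ x, fderiv ℝ (fun x : E3 => gr F φ x i) x (eb i) * η x := by
      intro i
      rw [← (I2 i).2.2]
      exact integral_congr_ae (Eventually.of_forall fun x => mul_comm _ _)
    rw [j1]
    simp_rw [j2]
    rw [Finset.sum_neg_distrib, ← integral_finsetSum _ (fun i _ => (I2 i).2.1)]
    rw [neg_add_eq_zero]
    refine integral_congr_ae ?_
    filter_upwards [ae_ne] with x hx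
    have hx0 := norm_pos_iff.2 hx
    rw [← Finset.sum_mul]
    have key : ∑ i : Fin 3, fderiv ℝ (fun x : E3 => gr F φ x i) x (eb i)
        = F (φ ‖x‖) - ‖x‖⁻¹ * φ ‖x‖ := by
      have e1 : ∀ i : Fin 3, fderiv ℝ (fun x : E3 => gr F φ x i) x (eb i)
          = H ‖x‖ + (H' ‖x‖ * ‖x‖⁻¹) * (x i * x i) := by
        intro i
        rw [B3 i x hx, ContinuousLinearMap.add_apply, ContinuousLinearMap.smul_apply,
          ContinuousLinearMap.smul_apply, ContinuousLinearMap.smul_apply, inner_eb]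
        have : (EuclideanSpace.proj i : E3 →L[ℝ] ℝ) (eb i) = 1 := by simp [eb]
        rw [this, smul_eq_mul, smul_eq_mul, smul_eq_mul]
        ring
      simp_rw [e1]
      have e2 : ∑ i : Fin 3, (H ‖x‖ + (H' ‖x‖ * ‖x‖⁻¹) * (x i * x i))
          = 3 * H ‖x‖ + (H' ‖x‖ * ‖x‖⁻¹) * ‖x‖ ^ 2 := by
        rw [← sum_sq, Finset.sum_add_distrib, ← Finset.mul_sum (s := Finset.univ)
          (f := fun i => x i * x i)]
        simp
      rw [e2]
      simp only [hH, hH']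
      field_simp
      ring
    rw [key, mul_comm]

end Pool.Agent.Q64.SH
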