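import Pool.Agent.Q64.Shoot.Volterra

/-! # The radial equation: derivatives and shooting -/

namespace Pool.Agent.Q64.SH

open MeasureTheory Set Filter Topology

structure IsSol (F : ℝ → ℝ) (a : ℝ) (φ : ℝ → ℝ) : Prop where
  F_cont : Continuous F
  cont : Continuous φ
  eq : ∀ r, φ r = T F a φ r

/-- the derivative -/
noncomputable def DD (F φ : ℝ → ℝ) (r : ℝ) : ℝ :=
  r * (∫ s in (0:ℝ)..1, s ^ 2 * F (φ (r * s))) - ∫ s in (0:ℝ)..1, s * φ (r * s)

noncomputable def mm (F φ : ℝ → ℝ) (r : ℝ) : ℝ := r ^ 2 * F (φ r) - r * φ r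

noncomputable def PP (F φ : ℝ → ℝ) (r : ℝ) : ℝ := ∫ s in (0:ℝ)..r, mm F φ s

variable {F φ : ℝ → ℝ} {a : ℝ}

lemma IsSol.zero (h : IsSol F a φ) : φ 0 = a := by rw [h.eq 0]; simp [T]

lemma IsSol.mm_cont (h : IsSol F a φ) : Continuous (mm F φ) := by
  have := h.F_cont; have := h.cont
  unfold mm; fun_prop

lemma IsSol.DD_cont (h : IsSol F a φ) : Continuous (DD F φ) := by
  have := h.F_cont; have := h.cont
  have h1 : Continuous fun r : ℝ => ∫ s in (0:ℝ)..1, s ^ 2 * F (φ (r * s)) := by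
    refine intervalIntegral.continuous_parametric_intervalIntegral_of_continuous' ?_ _ _
    simp only [Function.uncurry_def]; fun_prop
  have h2 : Continuous fun r : ℝ => ∫ s in (0:ℝ)..1, s * φ (r * s) := by
    refine intervalIntegral.continuous_parametric_intervalIntegral_of_continuous' ?_ _ _
    simp only [Function.uncurry_def]; fun_prop
  unfold DD; fun_prop

lemma IsSol.DD_zero (h : IsSol F a φ) : DD F φ 0 = -(a / 2) := by
  simp [DD, h.zero, integral_id]
  ring

lemma IsSol.hasDerivAt_PP (h : IsSol F a φ) (r : ℝ) : HasDerivAt (PP F φ) (mm F φ r) r :=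
  (h.mm_cont.integral_hasStrictDerivAt 0 r).hasDerivAt

lemma scale_int (g : ℝ → ℝ) {r : ℝ} (hr : r ≠ 0) :
    ∫ s in (0:ℝ)..1, g (r * s) = r⁻¹ * ∫ s in (0:ℝ)..r, g s := by
  rw [intervalIntegral.integral_comp_mul_left g hr]
  simp

lemma IsSol.PP_eq (h : IsSol F a φ) (r : ℝ) : PP F φ r = r ^ 2 * DD F φ r := by
  have hF := h.F_cont; have hφ := h.cont
  rcases eq_or_ne r 0 with rfl | hr
  · simp [PP]
  · have h1 : ∫ s in (0:ℝ)..1, s ^ 2 * F (φ (r * s))
        = r⁻¹ * ∫ s in (0:ℝ)..r, (s / r) ^ 2 * F (φ s) := by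
      rw [← scale_int _ hr]
      refine intervalIntegral.integral_congr fun s _ => ?_
      rw [mul_div_cancel_left₀ _ hr]
    have h2 : ∫ s in (0:ℝ)..1, s * φ (r * s) = r⁻¹ * ∫ s in (0:ℝ)..r, (s / r) * φ s := by
      rw [← scale_int _ hr]
      refine intervalIntegral.integral_congr fun s _ => ?_
      rw [mul_div_cancel_left₀ _ hr]
    have i1 : IntervalIntegrable (fun s => s ^ 2 * F (φ s)) volume 0 r :=
      (by fun_prop : Continuous fun s => s ^ 2 * F (φ s)).intervalIntegrable _ _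
    have i2 : IntervalIntegrable (fun s => s * φ s) volume 0 r :=
      (by fun_prop : Continuous fun s => s * φ s).intervalIntegrable _ _
    have h3 : ∫ s in (0:ℝ)..r, (s / r) ^ 2 * F (φ s)
        = (r ^ 2)⁻¹ * ∫ s in (0:ℝ)..r, s ^ 2 * F (φ s) := by
      rw [← intervalIntegral.integral_const_mul]
      refine intervalIntegral.integral_congr fun s _ => ?_
      field_simp
    have h4 : ∫ s in (0:ℝ)..r, (s / r) * φ s = r⁻¹ * ∫ s in (0:ℝ)..r, s * φ s := by
      rw [← intervalIntegral.integral_const_mul]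
      refine intervalIntegral.integral_congr fun s _ => ?_
      field_simp
    rw [DD, h1, h2, h3, h4, PP]
    have h5 : ∫ s in (0:ℝ)..r, mm F φ s
        = (∫ s in (0:ℝ)..r, s ^ 2 * F (φ s)) - ∫ s in (0:ℝ)..r, s * φ s := by
      rw [← intervalIntegral.integral_sub i1 i2]; rfl
    rw [h5]
    field_simp

lemma IsSol.formula (h : IsSol F a φ) {r : ℝ} (hr : r ≠ 0) :
    φ r = a + (∫ s in (0:ℝ)..r, (s * F (φ s) - φ s)) - r⁻¹ * PP F φ r := by
  have hF := h.F_cont; have hφ := h.cont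
  have h1 : ∫ s in (0:ℝ)..1, (s - s ^ 2) * F (φ (r * s))
      = r⁻¹ * ∫ s in (0:ℝ)..r, (s / r - (s / r) ^ 2) * F (φ s) := by
    rw [← scale_int _ hr]
    refine intervalIntegral.integral_congr fun s _ => ?_
    rw [mul_div_cancel_left₀ _ hr]
  have h2 : ∫ s in (0:ℝ)..1, (1 - s) * φ (r * s)
      = r⁻¹ * ∫ s in (0:ℝ)..r, (1 - s / r) * φ s := by
    rw [← scale_int _ hr]
    refine intervalIntegral.integral_congr fun s _ => ?_
    rw [mul_div_cancel_left₀ _ hr]
  have c1 : Continuous fun s => s ^ 2 * F (φ s) := by fun_prop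
  have c2 : Continuous fun s => s * φ s := by fun_prop
  have c3 : Continuous fun s => s * F (φ s) := by fun_prop
  have h3 : ∫ s in (0:ℝ)..r, (s / r - (s / r) ^ 2) * F (φ s)
      = r⁻¹ * (∫ s in (0:ℝ)..r, s * F (φ s)) - (r ^ 2)⁻¹ * ∫ s in (0:ℝ)..r, s ^ 2 * F (φ s) := by
    have i1 : IntervalIntegrable (fun s => r⁻¹ * (s * F (φ s))) volume 0 r :=
      (continuous_const.mul c3).intervalIntegrable _ _
    have i2 : IntervalIntegrable (fun s => (r ^ 2)⁻¹ * (s ^ 2 * F (φ s))) volume 0 r :=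
      (continuous_const.mul c1).intervalIntegrable _ _
    rw [← intervalIntegral.integral_const_mul, ← intervalIntegral.integral_const_mul,
      ← intervalIntegral.integral_sub i1 i2]
    refine intervalIntegral.integral_congr fun s _ => ?_
    field_simp
  have h4 : ∫ s in (0:ℝ)..r, (1 - s / r) * φ s
      = (∫ s in (0:ℝ)..r, φ s) - r⁻¹ * ∫ s in (0:ℝ)..r, s * φ s := by
    have i2 : IntervalIntegrable (fun s => r⁻¹ * (s * φ s)) volume 0 r :=
      (continuous_const.mul c2).intervalIntegrable _ _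
    rw [← intervalIntegral.integral_const_mul,
      ← intervalIntegral.integral_sub (hφ.intervalIntegrable _ _) i2]
    refine intervalIntegral.integral_congr fun s _ => ?_
    field_simp
  have h5 : PP F φ r = (∫ s in (0:ℝ)..r, s ^ 2 * F (φ s)) - ∫ s in (0:ℝ)..r, s * φ s := by
    rw [← intervalIntegral.integral_sub (c1.intervalIntegrable _ _) (c2.intervalIntegrable _ _)]
    rfl
  have h6 : ∫ s in (0:ℝ)..r, (s * F (φ s) - φ s)
      = (∫ s in (0:ℝ)..r, s * F (φ s)) - ∫ s in (0:ℝ)..r, φ s :=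
    intervalIntegral.integral_sub (c3.intervalIntegrable _ _) (hφ.intervalIntegrable _ _)
  rw [h.eq r, T, h1, h2, h3, h4, h5, h6]
  field_simp
  ring

lemma IsSol.hasDerivAt (h : IsSol F a φ) {r : ℝ} (hr : r ≠ 0) :
    HasDerivAt φ (DD F φ r) r := by
  have hF := h.F_cont; have hφ := h.cont
  have c1 : Continuous fun s => s * F (φ s) - φ s := by fun_prop
  have h1 := ((c1.integral_hasStrictDerivAt 0 r).hasDerivAt.const_add a).fun_sub
    ((hasDerivAt_inv hr).fun_mul (h.hasDerivAt_PP r))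
  have h2 : φ =ᶠ[𝓝 r] fun r => a + (∫ s in (0:ℝ)..r, (s * F (φ s) - φ s)) - r⁻¹ * PP F φ r := by
    filter_upwards [isOpen_ne.mem_nhds hr] with s hs
    exact h.formula hs
  refine (h1.congr_of_eventuallyEq h2).congr_deriv ?_
  rw [h.PP_eq r, mm]
  field_simp
  ring

lemma IsSol.hasDerivAt_DD (h : IsSol F a φ) {r : ℝ} (hr : r ≠ 0) :
    HasDerivAt (DD F φ) (F (φ r) - φ r / r - 2 * DD F φ r / r) r := by
  have hq : HasDerivAt (fun r : ℝ => (r ^ 2)⁻¹) (-(2 * r) / (r ^ 2) ^ 2) r := by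
    have := (hasDerivAt_pow 2 r).fun_inv (pow_ne_zero 2 hr)
    simpa using this
  have h1 := (h.hasDerivAt_PP r).fun_mul hq
  have h2 : DD F φ =ᶠ[𝓝 r] fun r => PP F φ r * (r ^ 2)⁻¹ := by
    filter_upwards [isOpen_ne.mem_nhds hr] with s hs
    have hs' : s ≠ 0 := hs
    rw [h.PP_eq s]; field_simp
  refine (h1.congr_of_eventuallyEq h2).congr_deriv ?_
  rw [h.PP_eq r, mm]
  field_simp
  ring

/-- `(φ + r φ')' = r F(φ) - φ` -/
lemma IsSol.hasDerivAt_u (h : IsSol F a φ) {r : ℝ} (hr : r ≠ 0) :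
    HasDerivAt (fun r => φ r + r * DD F φ r) (r * F (φ r) - φ r) r := by
  have h1 := (h.hasDerivAt hr).fun_add ((hasDerivAt_id r).fun_mul (h.hasDerivAt_DD hr))
  refine h1.congr_deriv ?_
  simp only [id]
  field_simp
  ring

/-- antitone as long as the derivative is nonpositive -/
lemma IsSol.anti (h : IsSol F a φ) {s t : ℝ} (hs : 0 ≤ s) (hst : s ≤ t)
    (hD : ∀ x ∈ Ioo s t, DD F φ x ≤ 0) : φ t ≤ φ s := by
  have h1 : AntitoneOn φ (Icc s t) := by
    refine antitoneOn_of_hasDerivWithinAt_nonpos (convex_Icc s t) h.cont.continuousOn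
      (f' := DD F φ) ?_ ?_
    · intro x hx
      rw [interior_Icc] at hx ⊢
      exact (h.hasDerivAt (by linarith [hx.1] : (0:ℝ) < x).ne').hasDerivWithinAt
    · intro x hx
      rw [interior_Icc] at hx
      exact hD x hx
  exact h1 (left_mem_Icc.2 hst) (right_mem_Icc.2 hst) hst

lemma IsSol.strictAnti (h : IsSol F a φ) {s t : ℝ} (hs : 0 ≤ s) (hst : s < t)
    (hD : ∀ x ∈ Ioo s t, DD F φ x < 0) : φ t < φ s := by
  have h1 : StrictAntiOn φ (Icc s t) := by
    refine strictAntiOn_of_hasDerivWithinAt_neg (convex_Icc s t) h.cont.continuousOn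
      (f' := DD F φ) ?_ ?_
    · intro x hx
      rw [interior_Icc] at hx ⊢
      exact (h.hasDerivAt (by linarith [hx.1] : (0:ℝ) < x).ne').hasDerivWithinAt
    · intro x hx
      rw [interior_Icc] at hx
      exact hD x hx
  exact h1 (left_mem_Icc.2 hst.le) (right_mem_Icc.2 hst.le) hst

end Pool.Agent.Q64.SH
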