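import Pool.Agent.Q64.Shoot.Ode

/-! # Shooting -/

namespace Pool.Agent.Q64.SH

open MeasureTheory Set Filter Topology

/-- truncated power -/
noncomputable def FF (q A s : ℝ) : ℝ := (max 0 (min s A)) ^ q

lemma FF_zero {q A : ℝ} (hq : 1 < q) (hA : 0 < A) : FF q A 0 = 0 := by
  unfold FF
  rw [min_eq_left hA.le, max_self, Real.zero_rpow (by linarith)]

lemma FF_eq {q A s : ℝ} (h0 : 0 ≤ s) (hs : s ≤ A) : FF q A s = s ^ q := by
  unfold FF
  rw [min_eq_left hs, max_eq_right h0]

lemma FF_nonneg (q A s : ℝ) : 0 ≤ FF q A s := Real.rpow_nonneg (le_max_left _ _) _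

lemma FF_mono {q A : ℝ} (hq : 1 < q) : Monotone (FF q A) := by
  intro x y hxy
  unfold FF
  refine Real.rpow_le_rpow (le_max_left _ _) ?_ (by linarith)
  exact max_le_max le_rfl (min_le_min hxy le_rfl)

lemma FF_lip {q A : ℝ} (hq : 1 < q) (hA : 0 < A) (x y : ℝ) :
    |FF q A x - FF q A y| ≤ q * A ^ (q - 1) * |x - y| := by
  have h1 : ∀ s : ℝ, max 0 (min s A) ∈ Icc 0 A := fun s =>
    ⟨le_max_left _ _, max_le hA.le (min_le_right _ _)⟩
  have h2 := (convex_Icc 0 A).norm_image_sub_le_of_norm_hasDerivWithin_le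
    (f := fun s => s ^ q) (f' := fun s => q * s ^ (q - 1)) (C := q * A ^ (q - 1))
    (fun s _ => (Real.hasDerivAt_rpow_const (Or.inr hq.le)).hasDerivWithinAt)
    (fun s hs => by
      rw [norm_mul, Real.norm_of_nonneg (by linarith), Real.norm_of_nonneg (Real.rpow_nonneg hs.1 _)]
      exact mul_le_mul_of_nonneg_left (Real.rpow_le_rpow hs.1 hs.2 (by linarith)) (by linarith))
    (h1 y) (h1 x)
  refine h2.trans ?_
  refine mul_le_mul_of_nonneg_left ?_ (by positivity)
  rw [Real.norm_eq_abs]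
  calc |max 0 (min x A) - max 0 (min y A)| ≤ |min x A - min y A| := by
        have := abs_max_sub_max_le_max 0 (min x A) 0 (min y A)
        simpa using this
    _ ≤ |x - y| := by
        have := abs_min_sub_min_le_max x A y A
        simpa using this

variable {q A a : ℝ} {φ : ℝ → ℝ}

/-- events -/
def Zev (F φ : ℝ → ℝ) : Prop := ∃ r : ℝ, 0 < r ∧ φ r < 0 ∧ ∀ s ∈ Icc 0 r, DD F φ s < 0

def Uev (F φ : ℝ → ℝ) : Prop := ∃ r : ℝ, 0 < r ∧ 0 < DD F φ r ∧ ∀ s ∈ Icc 0 r, 0 < φ s

lemma not_both {F : ℝ → ℝ} (hZ : Zev F φ) (hU : Uev F φ) : False := by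
  obtain ⟨r, hr, h1, h2⟩ := hZ
  obtain ⟨t, ht, h3, h4⟩ := hU
  rcases le_total t r with h | h
  · linarith [h2 t ⟨ht.le, h⟩]
  · linarith [h4 r ⟨hr.le, h⟩]

/-- a tangency produces the event `U` -/
lemma tangency (hq : 1 < q) (h : IsSol (FF q A) a φ) {s r1 : ℝ} (hs : 0 < s) (hsr : s < r1)
    (hpos : ∀ x, 0 ≤ x → x < r1 → 0 < φ x) (hD : ∀ x, 0 ≤ x → x < r1 → DD (FF q A) φ x ≤ 0)
    (hD0 : DD (FF q A) φ s = 0) (hsA : φ s < A) : False := by
  -- local maximum of D at s
  have hmax : IsLocalMax (DD (FF q A) φ) s := by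
    filter_upwards [Ioo_mem_nhds hs hsr] with x hx
    rw [hD0]; exact hD x hx.1.le hx.2
  have h1 := hmax.hasDerivAt_eq_zero (h.hasDerivAt_DD hs.ne')
  rw [hD0] at h1
  have hφs := hpos s hs.le hsr
  have h2 : s * FF q A (φ s) - φ s = 0 := by
    have : FF q A (φ s) - φ s / s = 0 := by simpa using h1
    field_simp at this
    linarith
  -- h(r) = r φ^q - φ increases at s
  have hd : HasDerivAt (fun r => r * (φ r) ^ q - φ r) ((φ s) ^ q) s := by
    have h3 := h.hasDerivAt hs.ne'
    rw [hD0] at h3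
    have h4 := h3.rpow_const (p := q) (Or.inr hq.le)
    have h5 := ((hasDerivAt_id s).fun_mul h4).fun_sub h3
    refine h5.congr_deriv ?_
    simp
  have hFs : FF q A (φ s) = (φ s) ^ q := FF_eq hφs.le hsA.le
  have hpos' : 0 < (φ s) ^ q := Real.rpow_pos_of_pos hφs q
  have h3 := hasDerivAt_iff_tendsto_slope.1 hd
  have h4 : ∀ᶠ x in 𝓝[≠] s, 0 < slope (fun r => r * (φ r) ^ q - φ r) s x :=
    h3.eventually (lt_mem_nhds hpos')
  rw [eventually_nhdsWithin_iff] at h4
  have h5 : ∀ᶠ x in 𝓝 s, φ x < A := h.cont.continuousAt.eventually_lt_const hsA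
  have h6 : ∀ᶠ x in 𝓝 s, x < r1 := eventually_lt_nhds hsr
  obtain ⟨δ, hδ, h7⟩ := Metric.eventually_nhds_iff.1 (h4.and (h5.and h6))
  -- P is increasing on [s, s + δ/2]
  set t := s + δ / 2 with ht
  have hst : s < t := by rw [ht]; linarith
  have hin : ∀ x ∈ Ioc s t, 0 < mm (FF q A) φ x := by
    intro x hx
    have hx' : dist x s < δ := by
      rw [Real.dist_eq, abs_of_pos (by linarith [hx.1])]; linarith [hx.2]
    obtain ⟨h8, h9, h10⟩ := h7 hx'
    have h11 := h8 (by simpa using hx.1.ne')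
    rw [slope_def_field, ← hFs, h2, sub_zero] at h11
    have h12 : 0 < x * (φ x) ^ q - φ x := by
      have := mul_pos h11 (show 0 < x - s by linarith [hx.1])
      rwa [div_mul_cancel₀ _ (by linarith [hx.1] : 0 < x - s).ne'] at this
    have hx0 : 0 < x := hs.trans hx.1
    have h13 := hpos x hx0.le h10
    rw [mm, FF_eq h13.le h9.le]
    have : x ^ 2 * φ x ^ q - x * φ x = x * (x * (φ x) ^ q - φ x) := by ring
    rw [this]; positivity
  have hPs : PP (FF q A) φ s = 0 := by rw [h.PP_eq, hD0, mul_zero]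
  have hmono : StrictMonoOn (PP (FF q A) φ) (Icc s t) := by
    refine strictMonoOn_of_hasDerivWithinAt_pos (convex_Icc s t)
      (fun x _ => (h.hasDerivAt_PP x).continuousAt.continuousWithinAt)
      (f' := mm (FF q A) φ) ?_ ?_
    · intro x hx
      exact (h.hasDerivAt_PP x).hasDerivWithinAt
    · intro x hx
      rw [interior_Icc] at hx
      exact hin x ⟨hx.1, hx.2.le⟩
  have h8 := hmono (left_mem_Icc.2 hst.le) (right_mem_Icc.2 hst.le) hst
  rw [hPs, h.PP_eq] at h8
  have h9 : t < r1 := (h7 (y := t) (by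
    rw [Real.dist_eq, abs_of_pos (by linarith)]; linarith)).2.2
  have h10 := hD t (hs.trans hst).le h9
  nlinarith [sq_nonneg t]

/-- the dichotomy -/
theorem dichotomy (hq : 1 < q) (h : IsSol (FF q A) a φ) (ha : 0 < a) (haA : a ≤ A)
    (hZ : ¬ Zev (FF q A) φ) (hU : ¬ Uev (FF q A) φ) :
    (∀ r, 0 ≤ r → 0 < φ r) ∧ ∀ r, 0 ≤ r → DD (FF q A) φ r ≤ 0 := by
  have hD0 : DD (FF q A) φ 0 < 0 := by rw [h.DD_zero]; linarith
  have hUD : ∀ r, 0 ≤ r → (∀ s ∈ Icc 0 r, 0 < φ s) → DD (FF q A) φ r ≤ 0 := by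
    intro r hr hs
    by_contra hcon
    push Not at hcon
    rcases hr.eq_or_lt with h1 | h1
    · rw [← h1] at hcon; linarith
    · exact hU ⟨r, h1, hcon, hs⟩
  have hpos : ∀ r, 0 ≤ r → 0 < φ r := by
    by_contra hcon
    push Not at hcon
    obtain ⟨r0, hr0, hr0'⟩ := hcon
    set S : Set ℝ := {r | 0 ≤ r ∧ φ r ≤ 0} with hS
    have hSc : IsClosed S :=
      (isClosed_le continuous_const continuous_id).inter (isClosed_le h.cont continuous_const)
    have hSb : BddBelow S := ⟨0, fun r hr => hr.1⟩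
    have hSn : S.Nonempty := ⟨r0, hr0, hr0'⟩
    set r1 := sInf S with hr1
    have hr1S : r1 ∈ S := hSc.csInf_mem hSn hSb
    have hr1p : 0 < r1 := by
      rcases hr1S.1.eq_or_lt with h1 | h1
      · have := hr1S.2
        rw [← h1, h.zero] at this; linarith
      · exact h1
    have hlt : ∀ x, 0 ≤ x → x < r1 → 0 < φ x := by
      intro x hx hxr
      by_contra hcon
      push Not at hcon
      exact absurd (csInf_le hSb ⟨hx, hcon⟩) (not_le.2 hxr)
    have hφ1 : φ r1 = 0 := by
      refine le_antisymm hr1S.2 ?_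
      have h1 : Tendsto φ (𝓝[<] r1) (𝓝 (φ r1)) := h.cont.continuousAt.mono_left nhdsWithin_le_nhds
      refine ge_of_tendsto h1 ?_
      filter_upwards [Ioo_mem_nhdsLT hr1p] with x hx
      exact (hlt x hx.1.le hx.2).le
    have hDle : ∀ x, 0 ≤ x → x < r1 → DD (FF q A) φ x ≤ 0 := fun x hx hxr =>
      hUD x hx fun s hs => hlt s hs.1 (hs.2.trans_lt hxr)
    -- strictly below a for positive x
    have hlta : ∀ x, 0 < x → x < r1 → φ x < A := by
      intro x hx hxr
      -- strictly decreasing near 0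
      have h1 : ∀ᶠ y in 𝓝 (0:ℝ), DD (FF q A) φ y < 0 :=
        h.DD_cont.continuousAt.eventually_lt_const hD0
      obtain ⟨δ, hδ, h2⟩ := Metric.eventually_nhds_iff.1 h1
      set y := min (δ / 2) x with hy
      have hy0 : 0 < y := by positivity
      have h3 : φ y < φ 0 := h.strictAnti le_rfl hy0 fun z hz => h2 (by
        rw [Real.dist_eq, sub_zero, abs_of_pos hz.1]
        linarith [hz.2, min_le_left (δ / 2) x])
      have h4 : φ x ≤ φ y := h.anti hy0.le (min_le_right _ _) fun z hz =>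
        hDle z (hy0.trans hz.1).le (hz.2.trans hxr)
      rw [h.zero] at h3
      linarith
    have hDlt : ∀ x, 0 ≤ x → x < r1 → DD (FF q A) φ x < 0 := by
      intro x hx hxr
      rcases hx.eq_or_lt with h1 | h1
      · rw [← h1]; exact hD0
      · refine lt_of_le_of_ne (hDle x hx hxr) fun h2 => ?_
        exact tangency hq h h1 hxr hlt hDle h2 (hlta x h1 hxr)
    -- strict negativity at r1
    have hD1 : DD (FF q A) φ r1 < 0 := by
      have h1 : Tendsto (fun x => x * (φ x) ^ (q - 1)) (𝓝 r1) (𝓝 (r1 * (φ r1) ^ (q - 1))) := by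
        refine (continuous_id.mul (h.cont.rpow_const fun x => Or.inr ?_)).continuousAt
        linarith
      rw [hφ1, Real.zero_rpow (by linarith), mul_zero] at h1
      have h2 : ∀ᶠ x in 𝓝 r1, x * (φ x) ^ (q - 1) < 1 := h1.eventually_lt_const one_pos
      obtain ⟨δ, hδ, h3⟩ := Metric.eventually_nhds_iff.1 h2
      set t := max (r1 - δ / 2) (r1 / 2) with ht
      have htr : t < r1 := max_lt (by linarith) (by linarith)
      have ht0 : 0 < t := lt_of_lt_of_le (by positivity) (le_max_right _ _)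
      have hanti : StrictAntiOn (PP (FF q A) φ) (Icc t r1) := by
        refine strictAntiOn_of_hasDerivWithinAt_neg (convex_Icc t r1)
          (fun x _ => (h.hasDerivAt_PP x).continuousAt.continuousWithinAt)
          (f' := mm (FF q A) φ) ?_ ?_
        · intro x hx
          exact (h.hasDerivAt_PP x).hasDerivWithinAt
        · intro x hx
          rw [interior_Icc] at hx
          have hx0 : 0 < x := ht0.trans hx.1
          have hφx := hlt x hx0.le hx.2
          have h4 := h3 (y := x) (by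
            rw [Real.dist_eq, abs_of_neg (by linarith [hx.2])]
            linarith [hx.1, le_max_left (r1 - δ / 2) (r1 / 2)])
          rw [mm, FF_eq hφx.le (hlta x hx0 hx.2).le]
          have h5 : φ x ^ q = φ x * φ x ^ (q - 1) := by
            rw [← Real.rpow_one_add' hφx.le (by linarith)]; congr 1; ring
          rw [h5]
          have h6 : x ^ 2 * (φ x * φ x ^ (q - 1)) - x * φ x
              = x * φ x * (x * φ x ^ (q - 1) - 1) := by ring
          rw [h6]
          exact mul_neg_of_pos_of_neg (by positivity) (by linarith)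
      have h4 := hanti (left_mem_Icc.2 htr.le) (right_mem_Icc.2 htr.le) htr
      rw [h.PP_eq, h.PP_eq] at h4
      have h5 := hDle t ht0.le htr
      have h6 : t ^ 2 * DD (FF q A) φ t ≤ 0 := mul_nonpos_of_nonneg_of_nonpos (sq_nonneg _) h5
      have h7 : r1 ^ 2 * DD (FF q A) φ r1 < 0 := lt_of_lt_of_le h4 h6
      by_contra hcon
      push Not at hcon
      exact absurd (mul_nonneg (sq_nonneg r1) hcon) (not_le.2 h7)
    -- continue beyond r1
    have h1 : ∀ᶠ x in 𝓝 r1, DD (FF q A) φ x < 0 :=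
      h.DD_cont.continuousAt.eventually_lt_const hD1
    obtain ⟨δ, hδ, h2⟩ := Metric.eventually_nhds_iff.1 h1
    have h3 : ∀ s ∈ Icc 0 (r1 + δ / 2), DD (FF q A) φ s < 0 := by
      intro s hs
      rcases lt_or_ge s r1 with h4 | h4
      · exact hDlt s hs.1 h4
      · exact h2 (by rw [Real.dist_eq, abs_of_nonneg (by linarith)]; linarith [hs.2])
    have h4 : φ (r1 + δ / 2) < φ r1 := h.strictAnti hr1p.le (by linarith) fun x hx =>
      h3 x ⟨(hr1p.trans hx.1).le, hx.2.le⟩
    rw [hφ1] at h4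
    exact hZ ⟨r1 + δ / 2, by linarith, h4, h3⟩
  exact ⟨hpos, fun r hr => hUD r hr fun s hs => hpos s hs.1⟩

end Pool.Agent.Q64.SH
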