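import Mathlib

/-! # A singular Volterra equation (radial problem in `ℝ³` with a Coulomb term) -/

namespace Pool.Agent.Q64.SH

open MeasureTheory Set Filter Topology BoundedContinuousFunction

/-- the Volterra operator -/
noncomputable def T (F : ℝ → ℝ) (a : ℝ) (φ : ℝ → ℝ) (r : ℝ) : ℝ :=
  a + r ^ 2 * (∫ s in (0:ℝ)..1, (s - s ^ 2) * F (φ (r * s)))
    - r * ∫ s in (0:ℝ)..1, (1 - s) * φ (r * s)

noncomputable def w (Λ r : ℝ) : ℝ := Real.exp (Λ * (|r| + r ^ 2))

lemma w_pos (Λ r : ℝ) : 0 < w Λ r := Real.exp_pos _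

lemma w_cont (Λ : ℝ) : Continuous (w Λ) := by unfold w; fun_prop

lemma w_int {Λ L K : ℝ} (hΛ : 0 < Λ) (hL0 : 0 ≤ L) (hL : L ≤ K) (hK : 1 ≤ K) (r : ℝ) :
    (L * r ^ 2 + |r|) * ∫ s in (0:ℝ)..1, w Λ (r * s) ≤ K / Λ * w Λ r := by
  set B : ℝ := Λ * (|r| + r ^ 2) with hB
  have hB0 : 0 ≤ B := by positivity
  have h1 : ∫ s in (0:ℝ)..1, w Λ (r * s) ≤ ∫ s in (0:ℝ)..1, Real.exp (B * s) := by
    refine intervalIntegral.integral_mono_on zero_le_one
      (((w_cont Λ).comp (by fun_prop)).intervalIntegrable _ _)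
      ((by fun_prop : Continuous fun s => Real.exp (B * s)).intervalIntegrable _ _) fun s hs => ?_
    unfold w
    apply Real.exp_le_exp.2
    rw [hB, mul_assoc]
    refine mul_le_mul_of_nonneg_left ?_ hΛ.le
    rw [abs_mul, abs_of_nonneg hs.1]
    have h2 : s ^ 2 ≤ s := by nlinarith [hs.1, hs.2]
    nlinarith [sq_nonneg r]
  have h2 : B * ∫ s in (0:ℝ)..1, Real.exp (B * s) = Real.exp B - 1 := by
    rw [← intervalIntegral.integral_const_mul]
    have h3 : ∀ s ∈ uIcc (0:ℝ) 1, HasDerivAt (fun s => Real.exp (B * s)) (B * Real.exp (B * s)) s := by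
      intro s _
      have h4 : HasDerivAt (fun s : ℝ => B * s) B s := by
        simpa using (hasDerivAt_id s).const_mul B
      exact h4.exp.congr_deriv (by ring)
    rw [intervalIntegral.integral_eq_sub_of_hasDerivAt h3
      ((by fun_prop : Continuous fun s => B * Real.exp (B * s)).intervalIntegrable _ _)]
    simp
  have h3 : 0 ≤ ∫ s in (0:ℝ)..1, Real.exp (B * s) :=
    intervalIntegral.integral_nonneg zero_le_one fun s _ => (Real.exp_pos _).le
  have h4 : L * r ^ 2 + |r| ≤ K * (|r| + r ^ 2) := by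
    nlinarith [sq_nonneg r, abs_nonneg r]
  have h5 : 0 ≤ L * r ^ 2 + |r| := by positivity
  calc (L * r ^ 2 + |r|) * ∫ s in (0:ℝ)..1, w Λ (r * s)
      ≤ (L * r ^ 2 + |r|) * ∫ s in (0:ℝ)..1, Real.exp (B * s) := by gcongr
    _ ≤ (K * (|r| + r ^ 2)) * ∫ s in (0:ℝ)..1, Real.exp (B * s) := by gcongr
    _ = K / Λ * (B * ∫ s in (0:ℝ)..1, Real.exp (B * s)) := by rw [hB]; field_simp
    _ = K / Λ * (Real.exp B - 1) := by rw [h2]
    _ ≤ K / Λ * w Λ r := by
        have : 0 ≤ K / Λ := by positivity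
        refine mul_le_mul_of_nonneg_left ?_ this
        show Real.exp B - 1 ≤ Real.exp B
        linarith

variable {F : ℝ → ℝ} {L : ℝ}

lemma T_cont (hF : Continuous F) (a : ℝ) {φ : ℝ → ℝ} (hφ : Continuous φ) :
    Continuous (T F a φ) := by
  unfold T
  have h1 : Continuous fun r : ℝ => ∫ s in (0:ℝ)..1, (s - s ^ 2) * F (φ (r * s)) := by
    refine intervalIntegral.continuous_parametric_intervalIntegral_of_continuous' ?_ _ _
    simp only [Function.uncurry_def]; fun_prop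
  have h2 : Continuous fun r : ℝ => ∫ s in (0:ℝ)..1, (1 - s) * φ (r * s) := by
    refine intervalIntegral.continuous_parametric_intervalIntegral_of_continuous' ?_ _ _
    simp only [Function.uncurry_def]; fun_prop
  fun_prop

/-- the Lipschitz estimate -/
lemma T_diff (hF : Continuous F) (hL0 : 0 ≤ L) (hL : ∀ x y, |F x - F y| ≤ L * |x - y|) (a b : ℝ)
    {φ ψ : ℝ → ℝ} (hφ : Continuous φ) (hψ : Continuous ψ) {Λ D : ℝ} (hD : 0 ≤ D)
    (hd : ∀ r, |φ r - ψ r| ≤ D * w Λ r) (r : ℝ) :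
    |T F a φ r - T F b ψ r| ≤ |a - b| + (L * r ^ 2 + |r|) * (∫ s in (0:ℝ)..1, w Λ (r * s)) * D := by
  have c1 : Continuous fun s => (s - s ^ 2) * F (φ (r * s)) := by fun_prop
  have c2 : Continuous fun s => (s - s ^ 2) * F (ψ (r * s)) := by fun_prop
  have c3 : Continuous fun s => (1 - s) * φ (r * s) := by fun_prop
  have c4 : Continuous fun s => (1 - s) * ψ (r * s) := by fun_prop
  have cw : Continuous fun s => w Λ (r * s) := (w_cont Λ).comp (by fun_prop)
  set I := ∫ s in (0:ℝ)..1, w Λ (r * s) with hI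
  have e1 : |(∫ s in (0:ℝ)..1, (s - s ^ 2) * F (φ (r * s)))
      - ∫ s in (0:ℝ)..1, (s - s ^ 2) * F (ψ (r * s))| ≤ L * D * I := by
    rw [← intervalIntegral.integral_sub (c1.intervalIntegrable _ _) (c2.intervalIntegrable _ _),
      hI, ← intervalIntegral.integral_const_mul, ← Real.norm_eq_abs]
    refine intervalIntegral.norm_integral_le_of_norm_le zero_le_one
      (Eventually.of_forall fun s hs => ?_) ((continuous_const.mul cw).intervalIntegrable _ _)
    rw [← mul_sub, norm_mul, Real.norm_eq_abs, Real.norm_eq_abs]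
    have h1 : |s - s ^ 2| ≤ 1 := by
      rw [abs_le]; constructor <;> nlinarith [hs.1, hs.2]
    calc |s - s ^ 2| * |F (φ (r * s)) - F (ψ (r * s))|
        ≤ 1 * (L * (D * w Λ (r * s))) :=
          mul_le_mul h1 ((hL _ _).trans (mul_le_mul_of_nonneg_left (hd _) hL0)) (abs_nonneg _)
            zero_le_one
      _ = L * D * w Λ (r * s) := by ring
  have e2 : |(∫ s in (0:ℝ)..1, (1 - s) * φ (r * s))
      - ∫ s in (0:ℝ)..1, (1 - s) * ψ (r * s)| ≤ D * I := by
    rw [← intervalIntegral.integral_sub (c3.intervalIntegrable _ _) (c4.intervalIntegrable _ _),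
      hI, ← intervalIntegral.integral_const_mul, ← Real.norm_eq_abs]
    refine intervalIntegral.norm_integral_le_of_norm_le zero_le_one
      (Eventually.of_forall fun s hs => ?_) ((continuous_const.mul cw).intervalIntegrable _ _)
    rw [← mul_sub, norm_mul, Real.norm_eq_abs, Real.norm_eq_abs]
    have h1 : |1 - s| ≤ 1 := by
      rw [abs_le]; constructor <;> linarith [hs.1, hs.2]
    calc |1 - s| * |φ (r * s) - ψ (r * s)| ≤ 1 * (D * w Λ (r * s)) :=
          mul_le_mul h1 (hd _) (abs_nonneg _) zero_le_one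
      _ = D * w Λ (r * s) := one_mul _
  unfold T
  set A1 := ∫ s in (0:ℝ)..1, (s - s ^ 2) * F (φ (r * s))
  set A2 := ∫ s in (0:ℝ)..1, (s - s ^ 2) * F (ψ (r * s))
  set B1 := ∫ s in (0:ℝ)..1, (1 - s) * φ (r * s)
  set B2 := ∫ s in (0:ℝ)..1, (1 - s) * ψ (r * s)
  have e3 : a + r ^ 2 * A1 - r * B1 - (b + r ^ 2 * A2 - r * B2)
      = (a - b) + r ^ 2 * (A1 - A2) - r * (B1 - B2) := by ring
  rw [e3]
  calc |(a - b) + r ^ 2 * (A1 - A2) - r * (B1 - B2)|
      ≤ |(a - b) + r ^ 2 * (A1 - A2)| + |r * (B1 - B2)| := abs_sub _ _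
    _ ≤ (|a - b| + |r ^ 2 * (A1 - A2)|) + |r * (B1 - B2)| := by gcongr; exact abs_add_le _ _
    _ = |a - b| + r ^ 2 * |A1 - A2| + |r| * |B1 - B2| := by
        rw [abs_mul, abs_mul, abs_of_nonneg (sq_nonneg r)]
    _ ≤ |a - b| + r ^ 2 * (L * D * I) + |r| * (D * I) := by gcongr
    _ = |a - b| + (L * r ^ 2 + |r|) * I * D := by ring

/-- Existence, with Lipschitz dependence on the initial value. -/
theorem exists_sol (hF0 : F 0 = 0) (hL : ∀ x y, |F x - F y| ≤ L * |x - y|) :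
    ∃ (Λ : ℝ) (Φ : ℝ → ℝ → ℝ), 0 < Λ ∧ (∀ a, Continuous (Φ a)) ∧ (∀ a r, Φ a r = T F a (Φ a) r) ∧
      ∀ a b r, |Φ a r - Φ b r| ≤ 2 * |a - b| * w Λ r := by
  have hL0 : 0 ≤ L := by
    have := (abs_nonneg _).trans (hL 1 0)
    simpa using this
  have hF : Continuous F := by
    have : LipschitzWith (Real.toNNReal L) F := by
      refine LipschitzWith.of_dist_le_mul fun x y => ?_
      rw [Real.dist_eq, Real.dist_eq, Real.coe_toNNReal _ hL0]; exact hL x y
    exact this.continuous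
  set K : ℝ := max L 1 with hK
  have hK1 : 1 ≤ K := le_max_right _ _
  have hLK : L ≤ K := le_max_left _ _
  set Λ : ℝ := 2 * K with hΛ
  have hΛ0 : 0 < Λ := by linarith
  have hKΛ : K / Λ = 1/2 := by rw [hΛ]; field_simp
  have hwc : Continuous fun r => (w Λ r)⁻¹ := (w_cont Λ).inv₀ fun r => (w_pos Λ r).ne'
  have hw1 : ∀ r, 1 ≤ w Λ r := fun r => by
    unfold w; rw [← Real.exp_zero]; exact Real.exp_le_exp.2 (by positivity)
  have key : ∀ (a b : ℝ) (χ1 χ2 : ℝ →ᵇ ℝ) (r : ℝ),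
      |(w Λ r)⁻¹ * T F a (fun r => w Λ r * χ1 r) r - (w Λ r)⁻¹ * T F b (fun r => w Λ r * χ2 r) r|
        ≤ |a - b| + 1/2 * dist χ1 χ2 := by
    intro a b χ1 χ2 r
    have h1 := T_diff hF hL0 hL a b (φ := fun r => w Λ r * χ1 r) (ψ := fun r => w Λ r * χ2 r)
      (by have := w_cont Λ; fun_prop) (by have := w_cont Λ; fun_prop)
      (Λ := Λ) (D := dist χ1 χ2) dist_nonneg
      (fun r => by
        rw [← mul_sub, abs_mul, abs_of_pos (w_pos Λ r), mul_comm]
        refine mul_le_mul_of_nonneg_right ?_ (w_pos Λ r).le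
        rw [← Real.dist_eq]; exact dist_coe_le_dist r) r
    have h2 := w_int hΛ0 hL0 hLK hK1 r
    rw [hKΛ] at h2
    rw [← mul_sub, abs_mul, abs_of_pos (inv_pos.2 (w_pos Λ r))]
    have h3 : (w Λ r)⁻¹ ≤ 1 := inv_le_one_of_one_le₀ (hw1 r)
    calc (w Λ r)⁻¹ * |T F a (fun r => w Λ r * χ1 r) r - T F b (fun r => w Λ r * χ2 r) r|
        ≤ (w Λ r)⁻¹ * (|a - b| + 1/2 * w Λ r * dist χ1 χ2) := by
          refine mul_le_mul_of_nonneg_left (h1.trans ?_) (inv_pos.2 (w_pos Λ r)).le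
          gcongr
      _ = (w Λ r)⁻¹ * |a - b| + 1/2 * dist χ1 χ2 := by
          have := (w_pos Λ r).ne'
          field_simp
      _ ≤ 1 * |a - b| + 1/2 * dist χ1 χ2 := by gcongr
      _ = _ := by ring
  have hzero : ∀ r, (w Λ r)⁻¹ * T F 0 (fun r => w Λ r * (0 : ℝ →ᵇ ℝ) r) r = 0 := by
    intro r
    simp [T, hF0]
  -- the contraction
  let S : ℝ → (ℝ →ᵇ ℝ) → (ℝ →ᵇ ℝ) := fun a χ =>
    BoundedContinuousFunction.ofNormedAddCommGroup
      (fun r => (w Λ r)⁻¹ * T F a (fun r => w Λ r * χ r) r)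
      (hwc.mul (T_cont hF a (by have := w_cont Λ; fun_prop)))
      (|a| + 1/2 * dist χ 0) (fun r => by
        have := key a 0 χ 0 r
        rw [hzero, sub_zero, sub_zero] at this
        exact this)
  have hS : ∀ a χ r, S a χ r = (w Λ r)⁻¹ * T F a (fun r => w Λ r * χ r) r := fun a χ r => rfl
  have hcon : ∀ a, ContractingWith (1/2) (S a) := by
    intro a
    refine ⟨by
      rw [← NNReal.coe_lt_coe]; norm_num, LipschitzWith.of_dist_le_mul fun χ1 χ2 => ?_⟩
    rw [BoundedContinuousFunction.dist_le (by positivity)]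
    intro r
    have := key a a χ1 χ2 r
    rw [sub_self, abs_zero, zero_add] at this
    rw [Real.dist_eq, hS, hS]
    refine this.trans (le_of_eq ?_)
    norm_num
  let χ : ℝ → (ℝ →ᵇ ℝ) := fun a => (hcon a).fixedPoint (S a)
  have hχ : ∀ a, S a (χ a) = χ a := fun a => (hcon a).fixedPoint_isFixedPt
  refine ⟨Λ, fun a r => w Λ r * χ a r, hΛ0, fun a => (w_cont Λ).mul (χ a).continuous, ?_, ?_⟩
  · intro a r
    have h1 : χ a r = (w Λ r)⁻¹ * T F a (fun r => w Λ r * χ a r) r := by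
      conv_lhs => rw [← hχ a]
      exact hS a (χ a) r
    have := (w_pos Λ r).ne'
    calc w Λ r * χ a r = w Λ r * ((w Λ r)⁻¹ * T F a (fun r => w Λ r * χ a r) r) := by rw [← h1]
      _ = _ := by field_simp
  · intro a b r
    have h1 : dist (χ a) (χ b) ≤ |a - b| + 1/2 * dist (χ a) (χ b) := by
      rw [BoundedContinuousFunction.dist_le (by positivity)]
      intro r
      have h2 := key a b (χ a) (χ b) r
      rw [Real.dist_eq]
      have h3 : χ a r = S a (χ a) r := by rw [hχ]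
      have h4 : χ b r = S b (χ b) r := by rw [hχ]
      rw [h3, h4, hS, hS]
      exact h2
    have h2 : dist (χ a) (χ b) ≤ 2 * |a - b| := by linarith
    rw [← mul_sub, abs_mul, abs_of_pos (w_pos Λ r), mul_comm]
    refine mul_le_mul_of_nonneg_right ?_ (w_pos Λ r).le
    rw [← Real.dist_eq]
    exact (dist_coe_le_dist r).trans h2

end Pool.Agent.Q64.SH
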