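import Pool.Agent.Q64.Shoot.Exist

/-! # Integration by parts on `ℝ³` across the origin -/

namespace Pool.Agent.Q64.SH

open MeasureTheory Set Filter Topology Metric
open scoped ContDiff

abbrev E3 := EuclideanSpace ℝ (Fin 3)

noncomputable def eb (i : Fin 3) : E3 := EuclideanSpace.single i 1

lemma norm_eb (i : Fin 3) : ‖eb i‖ = 1 := by simp [eb]

lemma radial_intOn {f : ℝ → ℝ} {R : ℝ} (hf : IntegrableOn (fun y => y ^ 2 * f y) (Ioo 0 R)) :
    IntegrableOn (fun x : E3 => f ‖x‖) (ball 0 R) := by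
  rw [integrableOn_fun_norm_addHaar]
  have : Module.finrank ℝ E3 - 1 = 2 := by simp [E3]
  rw [this]
  simpa using hf

lemma inv_norm_intOn (R : ℝ) : IntegrableOn (fun x : E3 => ‖x‖⁻¹) (ball 0 R) := by
  refine radial_intOn (f := fun y => y⁻¹) ?_
  have h1 : IntegrableOn (fun y : ℝ => y) (Ioo 0 R) :=
    (continuous_id.integrableOn_Icc (a := 0) (b := R)).mono_set Ioo_subset_Icc_self
  refine h1.congr_fun (fun y hy => ?_) measurableSet_Ioo
  have : y ≠ 0 := hy.1.ne'
  field_simp

/-- the cut-off -/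
noncomputable def bb : ContDiffBump (0 : E3) := ⟨1, 2, one_pos, one_lt_two⟩

noncomputable def th (k : ℕ) (x : E3) : ℝ := 1 - bb (((k : ℝ) + 1) • x)

lemma th_contDiff (k : ℕ) : ContDiff ℝ ∞ (th k) :=
  contDiff_const.sub (bb.contDiff.comp (contDiff_const_smul _))

lemma th_abs_le (k : ℕ) (x : E3) : |th k x| ≤ 1 := by
  have h1 := bb.nonneg (x := ((k : ℝ) + 1) • x)
  have h2 := bb.le_one (x := ((k : ℝ) + 1) • x)
  rw [th, abs_le]
  constructor <;> linarith

lemma th_near (k : ℕ) {x : E3} (hx : ‖x‖ < ((k:ℝ) + 1)⁻¹) : th k x = 0 := by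
  have hk : (0:ℝ) < (k:ℝ) + 1 := by positivity
  have : ((k:ℝ) + 1) • x ∈ closedBall (0 : E3) bb.rIn := by
    rw [mem_closedBall, dist_zero_right, norm_smul, Real.norm_of_nonneg hk.le]
    show ((k:ℝ) + 1) * ‖x‖ ≤ 1
    calc ((k:ℝ) + 1) * ‖x‖ ≤ ((k:ℝ) + 1) * ((k:ℝ) + 1)⁻¹ := by gcongr
      _ = 1 := mul_inv_cancel₀ hk.ne'
  rw [th, bb.one_of_mem_closedBall this, sub_self]

lemma th_far (k : ℕ) {x : E3} (hx : 2 ≤ ((k:ℝ) + 1) * ‖x‖) : th k x = 1 := by
  have hk : (0:ℝ) < (k:ℝ) + 1 := by positivity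
  have : bb (((k:ℝ) + 1) • x) = 0 := by
    refine bb.zero_of_le_dist ?_
    rw [dist_zero_right, norm_smul, Real.norm_of_nonneg hk.le]
    exact hx
  rw [th, this, sub_zero]

lemma exists_fderiv_bound : ∃ B : ℝ, 0 ≤ B ∧ ∀ y : E3, ‖fderiv ℝ (bb : E3 → ℝ) y‖ ≤ B := by
  have hc : Continuous (fderiv ℝ (bb : E3 → ℝ)) := bb.contDiff.continuous_fderiv (n := 1) one_ne_zero
  obtain ⟨B, hB⟩ := (bb.hasCompactSupport.fderiv ℝ).exists_bound_of_continuous hc
  exact ⟨max B 0, le_max_right _ _, fun y => (hB y).trans (le_max_left _ _)⟩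

lemma th_fderiv (k : ℕ) (x v : E3) :
    fderiv ℝ (th k) x v = -(((k:ℝ) + 1) * fderiv ℝ (bb : E3 → ℝ) (((k:ℝ) + 1) • x) v) := by
  have h1 : HasFDerivAt (fun x : E3 => ((k:ℝ) + 1) • x)
      (((k:ℝ) + 1) • ContinuousLinearMap.id ℝ E3) x :=
    (((k:ℝ) + 1) • ContinuousLinearMap.id ℝ E3).hasFDerivAt
  have h2 : HasFDerivAt (bb : E3 → ℝ) (fderiv ℝ (bb : E3 → ℝ) (((k:ℝ) + 1) • x))
      (((k:ℝ) + 1) • x) :=
    ((bb.contDiff (n := 1)).differentiable one_ne_zero).differentiableAt.hasFDerivAt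
  have h3 := (h2.comp x h1).const_sub 1
  have h4 : fderiv ℝ (th k) x = _ := h3.fderiv
  rw [h4]
  simp

lemma th_fderiv_far (k : ℕ) {x : E3} (hx : 2 < ((k:ℝ) + 1) * ‖x‖) (v : E3) :
    fderiv ℝ (th k) x v = 0 := by
  have h1 : th k =ᶠ[𝓝 x] fun _ => (1:ℝ) := by
    have : ∀ᶠ y : E3 in 𝓝 x, 2 < ((k:ℝ) + 1) * ‖y‖ :=
      (by fun_prop : Continuous fun y : E3 => ((k:ℝ) + 1) * ‖y‖).continuousAt.eventually_const_lt hx
    filter_upwards [this] with y hy
    exact th_far k hy.le
  rw [h1.fderiv_eq]; simp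

/-- integration by parts across the origin -/
theorem ibp0 {v : E3 → ℝ} (hv : ContDiffOn ℝ 1 v {0}ᶜ)
    (hb : ∀ R : ℝ, ∃ C : ℝ, ∀ x : E3, x ≠ 0 → ‖x‖ ≤ R →
      |v x| ≤ C ∧ ‖fderiv ℝ v x‖ ≤ C * ‖x‖⁻¹)
    {η : E3 → ℝ} (hη : ContDiff ℝ ∞ η) (hc : HasCompactSupport η) (i : Fin 3) :
    Integrable (fun x => v x * fderiv ℝ η x (eb i)) ∧
    Integrable (fun x => fderiv ℝ v x (eb i) * η x) ∧
    ∫ x, v x * fderiv ℝ η x (eb i) = -∫ x, fderiv ℝ v x (eb i) * η x := by
  have hopen : IsOpen ({0}ᶜ : Set E3) := isOpen_compl_singleton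
  have hη1 : ContDiff ℝ 1 η := hη.of_le (by simp)
  -- bounds
  obtain ⟨R, hR⟩ : ∃ R : ℝ, tsupport η ⊆ ball 0 R := hc.isCompact.isBounded.subset_ball 0
  obtain ⟨C, hC⟩ := hb R
  obtain ⟨C0, hC0⟩ := hc.exists_bound_of_continuous hη.continuous
  have hη'c : Continuous (fun x => fderiv ℝ η x (eb i)) :=
    (hη1.continuous_fderiv one_ne_zero).clm_apply continuous_const
  have hη's : HasCompactSupport (fun x => fderiv ℝ η x (eb i)) :=
    (hc.fderiv ℝ).comp_left (g := fun L : E3 →L[ℝ] ℝ => L (eb i)) (by simp)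
  obtain ⟨C1, hC1⟩ := hη's.exists_bound_of_continuous hη'c
  have hC0' : 0 ≤ C0 := (norm_nonneg _).trans (hC0 0)
  have hC1' : 0 ≤ C1 := (norm_nonneg _).trans (hC1 0)
  obtain ⟨B, hB0, hB⟩ := exists_fderiv_bound
  set C' : ℝ := |C| with hC'
  have hCb : ∀ x : E3, x ≠ 0 → x ∈ tsupport η → |v x| ≤ C' ∧ ‖fderiv ℝ v x‖ ≤ C' * ‖x‖⁻¹ := by
    intro x hx hxs
    have h1 := hR hxs
    rw [mem_ball, dist_zero_right] at h1
    obtain ⟨h2, h3⟩ := hC x hx h1.le
    refine ⟨h2.trans (le_abs_self _), h3.trans ?_⟩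
    exact mul_le_mul_of_nonneg_right (le_abs_self _) (by positivity)
  have hae : ∀ᵐ x : E3, x ≠ 0 := by
    rw [ae_iff]; simp
  have hη0 : ∀ x, x ∉ tsupport η → η x = 0 := fun x hx => image_eq_zero_of_notMem_tsupport hx
  have hη'0 : ∀ x, x ∉ tsupport η → fderiv ℝ η x (eb i) = 0 := by
    intro x hx
    have : x ∉ tsupport (fderiv ℝ η) := fun h => hx (tsupport_fderiv_subset ℝ h)
    rw [image_eq_zero_of_notMem_tsupport this]; rfl
  -- measurability
  have hvm : AEStronglyMeasurable v := by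
    have h1 : AEStronglyMeasurable v (volume.restrict {0}ᶜ) :=
      hv.continuousOn.aestronglyMeasurable hopen.measurableSet
    rwa [restrict_compl_singleton] at h1
  have hv'c : ContinuousOn (fun x => fderiv ℝ v x (eb i)) {0}ᶜ :=
    (hv.continuousOn_fderiv_of_isOpen hopen (by norm_num)).clm_apply continuousOn_const
  have hv'm : AEStronglyMeasurable (fun x => fderiv ℝ v x (eb i)) := by
    have h1 : AEStronglyMeasurable (fun x => fderiv ℝ v x (eb i)) (volume.restrict {0}ᶜ) :=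
      hv'c.aestronglyMeasurable hopen.measurableSet
    rwa [restrict_compl_singleton] at h1
  -- dominating function
  set bd : E3 → ℝ := (ball (0 : E3) R).indicator fun x => C' * C1 + C' * C0 * (1 + 2 * B) * ‖x‖⁻¹
    with hbd
  have hbdi : Integrable bd := by
    rw [hbd, integrable_indicator_iff measurableSet_ball]
    refine IntegrableOn.add ?_ ((inv_norm_intOn R).const_mul _)
    exact integrableOn_const (measure_ball_lt_top.ne)
  have hC'0 : 0 ≤ C' := abs_nonneg _
  have hbd1 : ∀ x ∈ tsupport η, bd x = C' * C1 + C' * C0 * (1 + 2 * B) * ‖x‖⁻¹ := fun x hx => by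
    rw [hbd, indicator_of_mem (hR hx)]
  have hbd0 : ∀ x, 0 ≤ bd x := fun x => by
    rw [hbd]; exact indicator_nonneg (fun y _ => by positivity) x
  have hi1 : Integrable (fun x => v x * fderiv ℝ η x (eb i)) := by
    refine hbdi.mono' (hvm.mul hη'c.aestronglyMeasurable) ?_
    filter_upwards [hae] with x hx
    by_cases hxs : x ∈ tsupport η
    · rw [hbd1 x hxs, norm_mul]
      have h1 := (hCb x hx hxs).1
      have h2 : 0 ≤ C' * C0 * (1 + 2 * B) * ‖x‖⁻¹ := by positivity
      calc ‖v x‖ * ‖fderiv ℝ η x (eb i)‖ ≤ C' * C1 :=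
            mul_le_mul h1 (hC1 x) (norm_nonneg _) hC'0
        _ ≤ _ := by linarith
    · rw [hη'0 x hxs, mul_zero, norm_zero]; exact hbd0 x
  have hi2 : Integrable (fun x => fderiv ℝ v x (eb i) * η x) := by
    refine hbdi.mono' (hv'm.mul hη.continuous.aestronglyMeasurable) ?_
    filter_upwards [hae] with x hx
    by_cases hxs : x ∈ tsupport η
    · rw [hbd1 x hxs, norm_mul]
      have h1 := (hCb x hx hxs).2
      have h2 : ‖fderiv ℝ v x (eb i)‖ ≤ C' * ‖x‖⁻¹ := by
        refine ((fderiv ℝ v x).le_opNorm _).trans ?_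
        rw [norm_eb, mul_one]; exact h1
      have h3 : 0 ≤ C' * C0 * (2 * B) * ‖x‖⁻¹ := by positivity
      have h4 : 0 ≤ C' * C1 := by positivity
      calc ‖fderiv ℝ v x (eb i)‖ * ‖η x‖ ≤ (C' * ‖x‖⁻¹) * C0 :=
            mul_le_mul h2 (hC0 x) (norm_nonneg _) (by positivity)
        _ ≤ _ := by nlinarith
    · rw [hη0 x hxs, mul_zero, norm_zero]; exact hbd0 x
  refine ⟨hi1, hi2, ?_⟩
  -- the approximations
  set h : ℕ → E3 → ℝ := fun k x => (v x * th k x) * fderiv ℝ η x (eb i)
    + (fderiv ℝ v x (eb i) * th k x + v x * fderiv ℝ (th k) x (eb i)) * η x with hh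
  have hth1 : ∀ k, ContDiff ℝ 1 (th k) := fun k => (th_contDiff k).of_le (by simp)
  have hfk : ∀ k, ContDiff ℝ 1 (fun x => v x * th k x) := by
    intro k
    rw [contDiff_iff_contDiffAt]
    intro x
    rcases eq_or_ne x 0 with rfl | hx
    · have h1 : (fun x => v x * th k x) =ᶠ[𝓝 (0:E3)] fun _ => (0:ℝ) := by
        have : ball (0:E3) (((k:ℝ) + 1)⁻¹) ∈ 𝓝 (0:E3) := ball_mem_nhds _ (by positivity)
        filter_upwards [this] with y hy
        rw [mem_ball, dist_zero_right] at hy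
        rw [th_near k hy, mul_zero]
      exact contDiffAt_const.congr_of_eventuallyEq h1
    · exact (hv.contDiffAt (hopen.mem_nhds hx)).mul (hth1 k).contDiffAt
  have hint : ∀ k, ∫ x, h k x = 0 := by
    intro k
    have hfkc := (hfk k).continuous
    have hfk'c : Continuous fun x => fderiv ℝ (fun x => v x * th k x) x (eb i) :=
      ((hfk k).continuous_fderiv one_ne_zero).clm_apply continuous_const
    have j1 : Integrable (fun x => fderiv ℝ (fun x => v x * th k x) x (eb i) * η x) :=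
      (hfk'c.mul hη.continuous).integrable_of_hasCompactSupport hc.mul_left
    have j2 : Integrable (fun x => (v x * th k x) * fderiv ℝ η x (eb i)) :=
      (hfkc.mul hη'c).integrable_of_hasCompactSupport hη's.mul_left
    have j3 : Integrable (fun x => (v x * th k x) * η x) :=
      (hfkc.mul hη.continuous).integrable_of_hasCompactSupport hc.mul_left
    have key := integral_mul_fderiv_eq_neg_fderiv_mul_of_integrable (μ := volume)
      (f := fun x => v x * th k x) (g := η) (v := eb i) j1 j2 j3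
      (fun x _ => ((hfk k).differentiable one_ne_zero).differentiableAt)
      (fun x _ => (hη1.differentiable one_ne_zero).differentiableAt)
    have h1 : ∫ x, h k x = ∫ x, ((v x * th k x) * fderiv ℝ η x (eb i)
        + fderiv ℝ (fun x => v x * th k x) x (eb i) * η x) := by
      refine integral_congr_ae ?_
      filter_upwards [hae] with x hx
      have h2 : HasFDerivAt v (fderiv ℝ v x) x :=
        ((hv.contDiffAt (hopen.mem_nhds hx)).differentiableAt one_ne_zero).hasFDerivAt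
      have h3 : HasFDerivAt (th k) (fderiv ℝ (th k) x) x :=
        ((hth1 k).differentiable one_ne_zero).differentiableAt.hasFDerivAt
      have h4 : fderiv ℝ (fun x => v x * th k x) x
          = v x • fderiv ℝ (th k) x + th k x • fderiv ℝ v x := (h2.mul h3).fderiv
      simp only [hh]
      rw [h4]
      simp only [ContinuousLinearMap.add_apply, ContinuousLinearMap.smul_apply, smul_eq_mul]
      ring
    rw [h1, integral_add j2 j1, key, neg_add_cancel]
  have hlim : Tendsto (fun k => ∫ x, h k x) atTop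
      (𝓝 (∫ x, (v x * fderiv ℝ η x (eb i) + fderiv ℝ v x (eb i) * η x))) := by
    refine tendsto_integral_of_dominated_convergence bd (fun k => ?_) hbdi (fun k => ?_) ?_
    · have h1 : Continuous fun x => fderiv ℝ (th k) x (eb i) :=
        ((hth1 k).continuous_fderiv one_ne_zero).clm_apply continuous_const
      have h2 := (th_contDiff k).continuous
      exact ((hvm.mul h2.aestronglyMeasurable).mul hη'c.aestronglyMeasurable).add
        (((hv'm.mul h2.aestronglyMeasurable).add (hvm.mul h1.aestronglyMeasurable)).mul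
          hη.continuous.aestronglyMeasurable)
    · filter_upwards [hae] with x hx
      by_cases hxs : x ∈ tsupport η
      · rw [hbd1 x hxs]
        obtain ⟨h1, h2⟩ := hCb x hx hxs
        have hx0 : 0 < ‖x‖ := norm_pos_iff.2 hx
        have h3 : |fderiv ℝ v x (eb i)| ≤ C' * ‖x‖⁻¹ := by
          rw [← Real.norm_eq_abs]
          refine ((fderiv ℝ v x).le_opNorm _).trans ?_
          rw [norm_eb, mul_one]; exact h2
        have h4 : |fderiv ℝ (th k) x (eb i)| ≤ 2 * B * ‖x‖⁻¹ := by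
          rcases le_or_gt (((k:ℝ) + 1) * ‖x‖) 2 with h5 | h5
          · rw [th_fderiv, abs_neg, abs_mul, abs_of_pos (by positivity : (0:ℝ) < (k:ℝ) + 1)]
            have h6 : |fderiv ℝ (bb : E3 → ℝ) (((k:ℝ) + 1) • x) (eb i)| ≤ B := by
              rw [← Real.norm_eq_abs]
              refine ((fderiv ℝ (bb : E3 → ℝ) _).le_opNorm _).trans ?_
              rw [norm_eb, mul_one]; exact hB _
            have h7 : (k:ℝ) + 1 ≤ 2 * ‖x‖⁻¹ := by
              rw [← div_eq_mul_inv, le_div_iff₀ hx0]; exact h5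
            calc ((k:ℝ) + 1) * |fderiv ℝ (bb : E3 → ℝ) (((k:ℝ) + 1) • x) (eb i)|
                ≤ (2 * ‖x‖⁻¹) * B := mul_le_mul h7 h6 (abs_nonneg _) (by positivity)
              _ = _ := by ring
          · rw [th_fderiv_far k h5, abs_zero]; positivity
        have h5 := th_abs_le k x
        have h6 := hC1 x
        have h7 := hC0 x
        rw [Real.norm_eq_abs] at h6 h7 ⊢
        have t1 : |v x * th k x * fderiv ℝ η x (eb i)| ≤ C' * C1 := by
          rw [abs_mul, abs_mul]
          calc |v x| * |th k x| * |fderiv ℝ η x (eb i)| ≤ C' * 1 * C1 := by gcongr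
            _ = _ := by ring
        have t2 : |fderiv ℝ v x (eb i) * th k x + v x * fderiv ℝ (th k) x (eb i)|
            ≤ C' * ‖x‖⁻¹ * 1 + C' * (2 * B * ‖x‖⁻¹) := by
          refine (abs_add_le _ _).trans ?_
          rw [abs_mul, abs_mul]
          gcongr
        simp only [hh]
        refine (abs_add_le _ _).trans ?_
        rw [abs_mul (fderiv ℝ v x (eb i) * th k x + v x * fderiv ℝ (th k) x (eb i)) (η x)]
        calc |v x * th k x * fderiv ℝ η x (eb i)|
            + |fderiv ℝ v x (eb i) * th k x + v x * fderiv ℝ (th k) x (eb i)| * |η x|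
            ≤ C' * C1 + (C' * ‖x‖⁻¹ * 1 + C' * (2 * B * ‖x‖⁻¹)) * C0 := by gcongr
          _ = _ := by ring
      · simp only [hh]
        rw [hη'0 x hxs, hη0 x hxs, mul_zero, mul_zero, add_zero, norm_zero]
        exact hbd0 x
    · filter_upwards [hae] with x hx
      have hx0 : 0 < ‖x‖ := norm_pos_iff.2 hx
      refine tendsto_const_nhds.congr' ?_
      obtain ⟨N, hN⟩ := exists_nat_gt (2 / ‖x‖)
      filter_upwards [eventually_ge_atTop N] with k hk
      have h1 : 2 < ((k:ℝ) + 1) * ‖x‖ := by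
        rw [div_lt_iff₀ hx0] at hN
        have : (N:ℝ) ≤ k := by exact_mod_cast hk
        nlinarith
      simp only [hh]
      rw [th_far k h1.le, th_fderiv_far k h1]
      ring
  have h0 : ∫ x, (v x * fderiv ℝ η x (eb i) + fderiv ℝ v x (eb i) * η x) = 0 := by
    have h1 : Tendsto (fun k => ∫ x, h k x) atTop (𝓝 0) := by
      simp_rw [hint]; exact tendsto_const_nhds
    exact tendsto_nhds_unique hlim h1
  rw [integral_add hi1 hi2] at h0
  linarith

end Pool.Agent.Q64.SH
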